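import Pool.Agent.MP_ca1109_lc.Ot.Defs
import Pool.Agent.MP_ca1109_lc.Xh.CN

/-!
# Concentration, from the phases, on a finite space
-/

namespace Pool.Agent.MP_ca1109_lc.Ov

open Finset Pool.Agent.H66 Pool.Agent.MP_ca1109_lc.Mpg Pool.Agent.MP_ca1109_lc.Agp
  Pool.Agent.MP_ca1109_lc.Xp
open Pool.Agent.MP_ca1109_lc.Dnf (one)
open Pool.Agent.MP_ca1109_lc.Ph (be)
open Pool.Agent.MP_ca1109_lc.Xh (cnK cn_sq cn_near cn_far)

/-- The average of the kernel. -/
theorem cg_bavg {X Ω : Type} [Fintype X] [Fintype Ω] (H : Ω → ℝ) (F : X → ℝ) {ε₀ : ℝ}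
    {L : ℕ} (hL : 0 < L) (τ a : ℝ)
    (h : ∀ t : ℝ, ‖(av fun ω => be t (H ω)) - av fun x => be t (F x)‖ ≤ ε₀) :
    (avg fun x => cnK L (τ * (F x - a))) - ε₀ ≤ avg fun ω => cnK L (τ * (H ω - a)) := by
  have hL' : (0 : ℝ) < L := by exact_mod_cast hL
  have key : ∀ {A : Type} [Fintype A] (Z : A → ℝ),
      (((avg fun ω => cnK L (τ * (Z ω - a))) : ℝ) : ℂ) =
        (∑ l ∈ range L, ∑ l' ∈ range L,
          Complex.exp (-(Complex.I * ((((l : ℝ) - l') * τ * a : ℝ) : ℂ))) *
            av fun ω => be (((l : ℝ) - l') * τ) (Z ω)) / (L : ℂ) ^ 2 := by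
    intro A _ Z
    rw [← spb_avg_ofReal]
    have h1 : (fun ω => ((cnK L (τ * (Z ω - a)) : ℝ) : ℂ)) = fun ω =>
        (1 / (L : ℂ) ^ 2) * ∑ l ∈ range L, ∑ l' ∈ range L,
          Complex.exp (-(Complex.I * ((((l : ℝ) - l') * τ * a : ℝ) : ℂ))) *
            be (((l : ℝ) - l') * τ) (Z ω) := by
      funext ω
      rw [cn_sq, one_div, div_eq_inv_mul]
      congr 1
      refine Finset.sum_congr rfl fun l _ => Finset.sum_congr rfl fun l' _ => ?_
      unfold be
      rw [← Complex.exp_add]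
      congr 1
      push_cast
      ring
    rw [h1, spb_av_mul, spb_av_sum]
    rw [one_div, div_eq_inv_mul]
    congr 1
    refine Finset.sum_congr rfl fun l _ => ?_
    rw [spb_av_sum]
    refine Finset.sum_congr rfl fun l' _ => ?_
    rw [spb_av_mul]
  have h1 := key H
  have h2 := key F
  have h3 : ‖((((avg fun ω => cnK L (τ * (H ω - a))) : ℝ) : ℂ) -
      (((avg fun x => cnK L (τ * (F x - a))) : ℝ) : ℂ))‖ ≤ ε₀ := by
    rw [h1, h2, ← sub_div, norm_div, norm_pow, Complex.norm_natCast, div_le_iff₀ (by positivity),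
      ← Finset.sum_sub_distrib]
    refine (norm_sum_le _ _).trans ?_
    have h4 : ∀ l ∈ range L, ‖(∑ l' ∈ range L,
          Complex.exp (-(Complex.I * ((((l : ℝ) - l') * τ * a : ℝ) : ℂ))) *
            av fun ω => be (((l : ℝ) - l') * τ) (H ω)) -
        ∑ l' ∈ range L,
          Complex.exp (-(Complex.I * ((((l : ℝ) - l') * τ * a : ℝ) : ℂ))) *
            av fun x => be (((l : ℝ) - l') * τ) (F x)‖ ≤ L * ε₀ := by
      intro l _
      rw [← Finset.sum_sub_distrib]
      refine (norm_sum_le _ _).trans ?_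
      calc ∑ l' ∈ range L, ‖Complex.exp (-(Complex.I * ((((l : ℝ) - l') * τ * a : ℝ) : ℂ))) *
            (av fun ω => be (((l : ℝ) - l') * τ) (H ω)) -
            Complex.exp (-(Complex.I * ((((l : ℝ) - l') * τ * a : ℝ) : ℂ))) *
            av fun x => be (((l : ℝ) - l') * τ) (F x)‖
          ≤ ∑ _l' ∈ range L, ε₀ := by
            refine Finset.sum_le_sum fun l' _ => ?_
            rw [← mul_sub, norm_mul]
            have h5 : ‖Complex.exp (-(Complex.I * ((((l : ℝ) - l') * τ * a : ℝ) : ℂ)))‖ = 1 := by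
              have : -(Complex.I * ((((l : ℝ) - l') * τ * a : ℝ) : ℂ)) =
                  ((-(((l : ℝ) - l') * τ * a) : ℝ) : ℂ) * Complex.I := by
                push_cast
                ring
              rw [this]
              exact Complex.norm_exp_ofReal_mul_I _
            rw [h5, one_mul]
            exact h _
        _ = L * ε₀ := by rw [Finset.sum_const, Finset.card_range, nsmul_eq_mul]
    calc ∑ l ∈ range L, _ ≤ ∑ _l ∈ range L, (L : ℝ) * ε₀ := Finset.sum_le_sum h4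
      _ = ε₀ * (L : ℝ) ^ 2 := by
          rw [Finset.sum_const, Finset.card_range, nsmul_eq_mul]
          ring
  rw [← Complex.ofReal_sub, Complex.norm_real, Real.norm_eq_abs] at h3
  have := (abs_le.1 h3).1
  linarith

/-- Concentration, from the phases. -/
theorem cg_gen (K : ℝ) {ε : ℝ} (hε : 0 < ε) : ∃ R : ℝ, 0 < R ∧ ∀ {X : Type} [Fintype X]
    [Nonempty X] (F : X → ℝ) (a D : ℝ), 0 < D → (avg fun x => (F x - a) ^ 2) ≤ K * D ^ 2 →
      ∀ {Ω : Type} [Fintype Ω] [Nonempty Ω] (H : Ω → ℝ) (ε₀ : ℝ),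
        (∀ t : ℝ, ‖(av fun ω => be t (H ω)) - av fun x => be t (F x)‖ ≤ ε₀) →
        (avg fun ω => one (R * D ≤ |H ω - a|)) ≤ ε + 4 * ε₀ := by
  set B : ℝ := 49 * (|K| + 1) with hB
  have hB0 : 0 < B := by positivity
  refine ⟨Real.sqrt (B / ε) + 7, by positivity, ?_⟩
  set R : ℝ := Real.sqrt (B / ε) + 7 with hR
  have hR0 : 0 < R := by positivity
  have hR2 : B / ε ≤ R ^ 2 := by
    calc B / ε = Real.sqrt (B / ε) ^ 2 := (Real.sq_sqrt (by positivity)).symm
      _ ≤ R ^ 2 := pow_le_pow_left₀ (Real.sqrt_nonneg _) (by rw [hR]; linarith) 2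
  intro X _ _ F a D hD hv Ω _ _ H ε₀ h
  have hε₀ : 0 ≤ ε₀ := (norm_nonneg _).trans (h 0)
  -- a bound for the statistic
  set m : ℝ := ∑ ω : Ω, |H ω - a| with hm
  have hm0 : 0 ≤ m := Finset.sum_nonneg fun x _ => abs_nonneg _
  have hbd : ∀ ω : Ω, |H ω - a| ≤ m := fun x =>
    Finset.single_le_sum (f := fun ω : Ω => |H ω - a|) (fun x _ => abs_nonneg _)
      (Finset.mem_univ x)
  set τ : ℝ := 1 / (m + R * D) with hτ
  have hMR : 0 < m + R * D := by positivity
  have hτ0 : 0 < τ := by positivity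
  have hτx : ∀ x : Ω, |τ * (H x - a)| ≤ 1 := by
    intro x
    rw [abs_mul, abs_of_pos hτ0, hτ, div_mul_eq_mul_div, one_mul, div_le_one hMR]
    have := hbd x
    have h2 : 0 < R * D := by positivity
    linarith
  have hτR : τ * (R * D) ≤ 1 := by
    rw [hτ, div_mul_eq_mul_div, one_mul, div_le_one hMR]
    linarith
  have hτR0 : 0 < τ * (R * D) := by positivity
  set L : ℕ := ⌈6 / (τ * (R * D))⌉₊ with hL
  have hL1 : 6 ≤ L * (τ * (R * D)) := by
    have := Nat.le_ceil (6 / (τ * (R * D)))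
    rwa [div_le_iff₀ hτR0] at this
  have hL2 : L * (τ * (R * D)) ≤ 7 := by
    have h1 := Nat.ceil_lt_add_one (a := 6 / (τ * (R * D))) (by positivity)
    have h2 : (L : ℝ) * (τ * (R * D)) ≤ (6 / (τ * (R * D)) + 1) * (τ * (R * D)) :=
      mul_le_mul_of_nonneg_right h1.le hτR0.le
    have h3 : (6 / (τ * (R * D)) + 1) * (τ * (R * D)) = 6 + τ * (R * D) := by
      field_simp
    linarith
  have hLpos : 0 < L := by
    rw [hL]
    exact Nat.ceil_pos.2 (by positivity)
  -- pointwise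
  have h1 : ∀ ω, one (R * D ≤ |H ω - a|) ≤ 2 * (1 - cnK L (τ * (H ω - a))) := by
    intro ω
    by_cases hx : R * D ≤ |H ω - a|
    · rw [Dnf.one_true hx]
      have h2 := cn_far (L := L) (hτx ω) (by
        rw [abs_mul, abs_of_pos hτ0]
        refine hL1.trans ?_
        have : τ * (R * D) ≤ τ * |H ω - a| := mul_le_mul_of_nonneg_left hx hτ0.le
        exact mul_le_mul_of_nonneg_left this (Nat.cast_nonneg _))
      linarith
    · rw [Dnf.one_false hx]
      have h2 : cnK L (τ * (H ω - a)) ≤ 1 := by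
        unfold cnK
        have hLp : (0 : ℝ) < L := by exact_mod_cast hLpos
        refine pow_le_one₀ (norm_nonneg _) ?_
        rw [norm_div, Complex.norm_natCast, div_le_one hLp]
        refine (norm_sum_le _ _).trans ?_
        have h3 : ∀ l ∈ range L,
            ‖Complex.exp (Complex.I * ((l * (τ * (H ω - a)) : ℝ) : ℂ))‖ = 1 := by
          intro l _
          rw [mul_comm]
          exact Complex.norm_exp_ofReal_mul_I _
        rw [Finset.sum_congr rfl h3, Finset.sum_const, Finset.card_range, nsmul_eq_mul, mul_one]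
      linarith
  have h2 : (avg fun ω => one (R * D ≤ |H ω - a|)) ≤
      avg fun ω => 2 * (1 - cnK L (τ * (H ω - a))) := by
    unfold avg
    exact div_le_div_of_nonneg_right (Finset.sum_le_sum fun ω _ => h1 ω) (Nat.cast_nonneg _)
  have hav : ∀ {A : Type} [Fintype A] [Nonempty A] (f : A → ℝ),
      (avg fun ω => 2 * (1 - f ω)) = 2 * (1 - avg f) := by
    intro A _ _ f
    unfold avg
    have hc : (0 : ℝ) < Fintype.card A := by exact_mod_cast Fintype.card_pos
    rw [← Finset.mul_sum, Finset.sum_sub_distrib, Finset.sum_const, Finset.card_univ,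
      nsmul_eq_mul, mul_one]
    field_simp
  rw [hav] at h2
  have h3 := cg_bavg H F hLpos τ a h
  have h4 : 2 * (1 - avg fun x => cnK L (τ * (F x - a))) ≤ ε := by
    rw [← hav]
    have h5 : ∀ x, 2 * (1 - cnK L (τ * (F x - a))) ≤ (L * τ) ^ 2 * (F x - a) ^ 2 := by
      intro x
      have := cn_near hLpos (τ * (F x - a))
      have h6 : (L * (τ * (F x - a))) ^ 2 = (L * τ) ^ 2 * (F x - a) ^ 2 := by ring
      rw [h6] at this
      linarith
    have h6 : (avg fun x => 2 * (1 - cnK L (τ * (F x - a)))) ≤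
        (L * τ) ^ 2 * avg fun x => (F x - a) ^ 2 := by
      unfold avg
      rw [← mul_div_assoc, Finset.mul_sum]
      exact div_le_div_of_nonneg_right (Finset.sum_le_sum fun x _ => h5 x) (Nat.cast_nonneg _)
    refine h6.trans ?_
    have h7 : (avg fun x => (F x - a) ^ 2) ≤ (|K| + 1) * D ^ 2 :=
      hv.trans (mul_le_mul_of_nonneg_right (by linarith [le_abs_self K]) (sq_nonneg D))
    have h8 : ((L : ℝ) * τ) ^ 2 * (R * D) ^ 2 ≤ 49 := by
      have h9 : 0 ≤ (L : ℝ) * (τ * (R * D)) := by positivity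
      calc ((L : ℝ) * τ) ^ 2 * (R * D) ^ 2 = (L * (τ * (R * D))) ^ 2 := by ring
        _ ≤ 7 ^ 2 := pow_le_pow_left₀ h9 hL2 2
        _ = 49 := by norm_num
    calc ((L : ℝ) * τ) ^ 2 * avg (fun x => (F x - a) ^ 2)
        ≤ ((L : ℝ) * τ) ^ 2 * ((|K| + 1) * D ^ 2) :=
          mul_le_mul_of_nonneg_left h7 (by positivity)
      _ = (((L : ℝ) * τ) ^ 2 * (R * D) ^ 2) * ((|K| + 1) / R ^ 2) := by
          field_simp
      _ ≤ 49 * ((|K| + 1) / R ^ 2) := mul_le_mul_of_nonneg_right h8 (by positivity)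
      _ = B / R ^ 2 := by rw [hB]; ring
      _ ≤ ε := by
          rw [div_le_iff₀ (by positivity)]
          rwa [div_le_iff₀ hε, mul_comm] at hR2
  linarith

/-- Ph.cn_gen for a general finite space instead of the cube. -/
theorem cg_conc (K : ℝ) {ε : ℝ} (hε : 0 < ε) : ∃ R : ℝ, 0 < R ∧ ∀ {A : Type} [Fintype A]
    [Nonempty A] (F : A → ℝ) (a D : ℝ), 0 < D → (avg fun x => (F x - a) ^ 2) ≤ K * D ^ 2 →
      ∀ {Θ : Type} [Fintype Θ] [Nonempty Θ] (Y : Θ → A) (ε₀ : ℝ),
        (∀ t : ℝ, ‖(av fun ω => be t (F (Y ω))) - av fun x => be t (F x)‖ ≤ ε₀) →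
        (avg fun ω => one (R * D ≤ |F (Y ω) - a|)) ≤ ε + 4 * ε₀ := by
  obtain ⟨R, hR, h⟩ := cg_gen K hε
  exact ⟨R, hR, fun {A} _ _ F a D hD hv {Θ} _ _ Y ε₀ hY => h F a D hD hv (fun ω => F (Y ω)) ε₀ hY⟩

end Pool.Agent.MP_ca1109_lc.Ov
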