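import Pool.Agent.MP_ca1109_lc.Ot.Defs
import Pool.Agent.MP_ca1109_lc.Ov.ME

/-!
# Row CW: the characters of a sum of functions of different coordinates
-/

namespace Pool.Agent.MP_ca1109_lc.Ov

open Finset Pool.Agent.H66 Pool.Agent.MP_ca1109_lc.Mpg Pool.Agent.MP_ca1109_lc.Agp
  Pool.Agent.MP_ca1109_lc.Xp
open Pool.Agent.MP_ca1109_lc.Dnf (one)
open Pool.Agent.MP_ca1109_lc.Ph (be)

theorem cw_sum {ι : Type*} (s : Finset ι) (W : ι → ℝ) (t : ℝ) :
    be t (∑ e ∈ s, W e) = ∏ e ∈ s, be t (W e) := by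
  unfold be
  rw [← Complex.exp_sum]
  congr 1
  push_cast
  rw [Finset.mul_sum, Finset.sum_mul]

theorem cw_norm (t s : ℝ) : ‖be t s‖ = 1 := Complex.norm_exp_ofReal_mul_I _

theorem cw_sub (t a b : ℝ) : be t (a - b) = be t a * (starRingEnd ℂ) (be t b) := by
  unfold be
  rw [← Complex.exp_conj, ← Complex.exp_add]
  congr 1
  rw [map_mul, Complex.conj_ofReal, Complex.conj_I]
  push_cast
  ring

theorem cw_sq (t s : ℝ) : ‖1 - be t s‖ ^ 2 = 2 - 2 * (be t s).re := by
  have h1 : ‖be t s‖ ^ 2 = 1 := by rw [cw_norm, one_pow]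
  rw [← Complex.normSq_eq_norm_sq, Complex.normSq_apply] at h1 ⊢
  simp only [Complex.sub_re, Complex.one_re, Complex.sub_im, Complex.one_im]
  linarith

/-- One function. -/
theorem cw_one {A : Type} [Fintype A] [Nonempty A] (W : A → ℝ) (t : ℝ) :
    ‖av fun x => be t (W x)‖ ^ 2 =
      1 - 1 / 2 * avg fun x => avg fun y => ‖1 - be t (W x - W y)‖ ^ 2 := by
  have h1 : (av fun x => av fun y => be t (W x - W y)) =
      (av fun x => be t (W x)) * (starRingEnd ℂ) (av fun x => be t (W x)) := by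
    have h2 : ∀ x, (av fun y => be t (W x - W y)) =
        be t (W x) * (starRingEnd ℂ) (av fun x => be t (W x)) := by
      intro x
      have h3 : (starRingEnd ℂ) (av fun x => be t (W x)) =
          av fun y => (starRingEnd ℂ) (be t (W y)) := by
        unfold av
        rw [map_div₀, map_sum, map_natCast]
      rw [h3, ← me_mul_left]
      congr 1
      funext y
      exact cw_sub _ _ _
    simp only [h2]
    exact me_mul_right _ _
  have h4 : ‖av fun x => be t (W x)‖ ^ 2 = (av fun x => av fun y => be t (W x - W y)).re := by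
    rw [h1, Complex.mul_conj, Complex.ofReal_re, Complex.normSq_eq_norm_sq]
  have h5 : (av fun x => av fun y => be t (W x - W y)).re =
      avg fun x => avg fun y => (be t (W x - W y)).re := by
    have h6 : ∀ f : A → ℂ, (av f).re = avg fun x => (f x).re := by
      intro f
      unfold av avg
      rw [Complex.div_natCast_re, Complex.re_sum]
    rw [h6]
    congr 1
    funext x
    exact h6 _
  have h7 : (avg fun x => avg fun y => ‖1 - be t (W x - W y)‖ ^ 2) =
      2 - 2 * avg fun x => avg fun y => (be t (W x - W y)).re := by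
    simp only [cw_sq]
    have h8 : ∀ (f : A → ℝ), (avg fun x => 2 - 2 * f x) = 2 - 2 * avg f := by
      intro f
      have := avg_sub (fun _ : A => (2 : ℝ)) (fun x => 2 * f x)
      rw [avg_const, avg_mul_left] at this
      exact this
    simp only [h8]
  rw [h4, h5, h7]
  ring

variable {E : Type} [Fintype E] [DecidableEq E] {Ω : E → Type} [∀ e, Fintype (Ω e)]
  [∀ e, Nonempty (Ω e)]

theorem cw_chf {W : E → (∀ e, Ω e) → ℝ} (hW : ∀ e, Dep {e} (W e)) (t : ℝ) :
    ‖av fun x => be t (∑ e, W e x)‖ ≤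
      Real.exp (-(1 / 4) * ∑ e, avg fun x : ∀ e, Ω e => avg fun y : ∀ e, Ω e =>
        ‖1 - be t (W e x - W e y)‖ ^ 2) := by
  have h1 : (av fun x => be t (∑ e, W e x)) = ∏ e, av fun x => be t (W e x) := by
    simp only [cw_sum]
    exact av_indep univ (fun e => {e}) (fun i _ j _ hij => disjoint_singleton.2 hij)
      (fun e x => be t (W e x)) fun e _ x y h => congr_arg (be t) (hW e x y h)
  rw [h1, norm_prod, Finset.mul_sum, Real.exp_sum]
  refine prod_le_prod (fun e _ => norm_nonneg _) fun e _ => ?_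
  have h2 := cw_one (W e) t
  set D := avg fun x => avg fun y => ‖1 - be t (W e x - W e y)‖ ^ 2
  have h3 : ‖av fun x => be t (W e x)‖ ^ 2 ≤ Real.exp (-(1 / 4) * D) ^ 2 := by
    rw [h2, ← Real.exp_nat_mul]
    have := Real.add_one_le_exp (-(1 / 2) * D)
    have h4 : ((2 : ℕ) : ℝ) * (-(1 / 4) * D) = -(1 / 2) * D := by push_cast; ring
    rw [h4]
    linarith
  exact (pow_le_pow_iff_left₀ (norm_nonneg _) (Real.exp_pos _).le two_ne_zero).1 h3

end Pool.Agent.MP_ca1109_lc.Ov
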