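import Pool.Agent.MP_ca1109_lc.Ot.Defs
import Pool.Agent.MP_ca1109_lc.Ov.CS
import Pool.Agent.MP_ca1109_lc.Ov.SP
import Pool.Agent.MP_ca1109_lc.Ov.ES
import Pool.Agent.MP_ca1109_lc.Ov.BX

/-!
# The characters of the sum over overlapping sets (row EC)
-/

namespace Pool.Agent.MP_ca1109_lc.Ov

open Finset Pool.Agent.H66 Pool.Agent.MP_ca1109_lc.Mpg Pool.Agent.MP_ca1109_lc.Agp
  Pool.Agent.MP_ca1109_lc.Xp
open Pool.Agent.MP_ca1109_lc.Ph (be)

theorem ec_be_norm (t s : ℝ) : ‖be t s‖ = 1 := by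
  rw [be]
  exact Complex.norm_exp_ofReal_mul_I _

theorem ec_be_add (t a b : ℝ) : be t (a + b) = be t a * be t b := by
  rw [be, be, be, ← Complex.exp_add]
  congr 1
  push_cast
  ring

theorem ec_be_zero (t : ℝ) : be t 0 = 1 := by
  rw [be]
  simp

theorem ec_be_conj (t a : ℝ) : (starRingEnd ℂ) (be t a) = be t (-a) := by
  rw [be, be, ← Complex.exp_conj]
  congr 1
  simp

theorem ec_be_sum {ι : Type*} (s : Finset ι) (t : ℝ) (a : ι → ℝ) :
    be t (∑ i ∈ s, a i) = ∏ i ∈ s, be t (a i) := by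
  classical
  induction s using Finset.induction_on with
  | empty => simp [ec_be_zero]
  | insert i s hi ih => rw [Finset.sum_insert hi, Finset.prod_insert hi, ec_be_add, ih]

theorem ec_avg_mul {A : Type*} [Fintype A] (c : ℝ) (f : A → ℝ) :
    (avg fun a => c * f a) = c * avg f := by
  simp only [avg]
  rw [← Finset.mul_sum, mul_div_assoc]

section product

variable {E : Type} [Fintype E] [DecidableEq E] {Ω : E → Type} [∀ e, Fintype (Ω e)]
  [∀ e, Nonempty (Ω e)]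

omit [∀ e, Fintype (Ω e)] [∀ e, Nonempty (Ω e)] in
/-- The box product of a phase is the phase of the second difference. -/
theorem ec_bx (A : Finset E) (w : (∀ e, Ω e) → ℝ) (t : ℝ) (x y : ∀ e, Ω e) :
    bx A Aᶜ (fun x => be t (w x)) x y = be t (dd A w x y) := by
  have h : mix (A ∪ Aᶜ) x y = y := by
    funext e
    simp [mix]
  simp only [bx, h, ec_be_conj, ← ec_be_add]
  rw [dd]
  ring_nf

theorem ec_Qf (w : (∀ e, Ω e) → ℝ) (t : ℝ) :
    (avg fun R : E → Bool => avg fun x : ∀ e, Ω e => avg fun y : ∀ e, Ω e =>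
      ‖1 - be t (dd (tr R) w x y)‖ ^ 2) = 2 * Qf (fun x => be t (w x)) := by
  rw [Qf, ← ec_avg_mul]
  congr 1
  funext R
  rw [dft_eq (fun x => ec_be_norm t (w x))]
  simp only [ec_bx]
  ring

end product

theorem ec_chf (r : ℕ) {ε : ℝ} (hε : 0 < ε) : ∃ V₀ : ℝ, 0 ≤ V₀ ∧ ∀ {E J : Type} [Fintype E]
    [DecidableEq E] [Fintype J] [DecidableEq J] {Ω : E → Type} [∀ e, Fintype (Ω e)]
    [∀ e, Nonempty (Ω e)] {B : J → Finset E} {w : J → (∀ e, Ω e) → ℝ}, (∀ j, Dep (B j) (w j)) →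
    (∀ e, (univ.filter fun j => e ∈ B j).card ≤ r) → (∀ i j, i ≠ j → (B i ∩ B j).card ≤ 1) →
    ∀ t : ℝ, V₀ ≤ ∑ j, (avg fun R : E → Bool => avg fun x : ∀ e, Ω e => avg fun y : ∀ e, Ω e =>
        ‖1 - be t (dd (tr R) (w j) x y)‖ ^ 2) →
      ‖av fun x => be t (∑ j, w j x)‖ ≤ ε := by
  obtain ⟨C, hC, H⟩ := cut_sum (r := r + 1) (Nat.le_add_left 1 r)
  set m : ℕ := 2 * 4 ^ (r + 1 - 1) with hm
  have hm1 : 1 ≤ m := by
    have : 1 ≤ 4 ^ (r + 1 - 1) := Nat.one_le_pow _ _ (by norm_num)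
    omega
  refine ⟨|2 * ((m : ℝ) ^ 4 * (C * Real.log (1 / ε ^ 2)))| + 1, by positivity, ?_⟩
  intro E J _ _ _ _ Ω _ _ B w hw hr hl t hV
  by_contra hcon
  push Not at hcon
  have hF : Fam (r + 1) B (fun j x => be t (w j x)) :=
    ⟨fun j x y hxy => by rw [hw j x y hxy], fun j x => ec_be_norm t _,
      fun e => (hr e).trans (Nat.le_succ r), hl⟩
  have hprod : (fun x : ∀ e, Ω e => ∏ j, be t (w j x)) = fun x => be t (∑ j, w j x) := by
    funext x
    rw [ec_be_sum]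
  have hS : ε ^ 2 ≤ Sh (fun x : ∀ e, Ω e => ∏ j, be t (w j x)) := by
    rw [hprod]
    refine le_trans ?_ (Sh_ge _)
    exact pow_le_pow_left₀ hε.le hcon.le 2
  have h1 := H hF (pow_pos hε 2) hS
  have h2 : ∑ j, (avg fun R : E → Bool => avg fun x : ∀ e, Ω e => avg fun y : ∀ e, Ω e =>
        ‖1 - be t (dd (tr R) (w j) x y)‖ ^ 2) ≤
      2 * ((m : ℝ) ^ 4 * (C * Real.log (1 / ε ^ 2))) := by
    calc ∑ j, (avg fun R : E → Bool => avg fun x : ∀ e, Ω e => avg fun y : ∀ e, Ω e =>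
          ‖1 - be t (dd (tr R) (w j) x y)‖ ^ 2)
        = 2 * ∑ j, Qf (fun x => be t (w j x)) := by
          rw [Finset.mul_sum]
          exact Finset.sum_congr rfl fun j _ => ec_Qf (w j) t
      _ ≤ 2 * ∑ j, ((m : ℝ) ^ 4 * DD m (fun x => be t (w j x))) := by
          refine mul_le_mul_of_nonneg_left ?_ (by norm_num)
          exact Finset.sum_le_sum fun j _ => split hm1 (fun x => ec_be_norm t (w j x))
      _ = 2 * ((m : ℝ) ^ 4 * ∑ j, DD m (fun x => be t (w j x))) := by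
          rw [← Finset.mul_sum]
      _ ≤ 2 * ((m : ℝ) ^ 4 * (C * Real.log (1 / ε ^ 2))) := by
          refine mul_le_mul_of_nonneg_left ?_ (by norm_num)
          exact mul_le_mul_of_nonneg_left h1 (by positivity)
  have h3 := le_abs_self (2 * ((m : ℝ) ^ 4 * (C * Real.log (1 / ε ^ 2))))
  linarith

end Pool.Agent.MP_ca1109_lc.Ov
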