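import Pool.Agent.MP_ca1109_lc.Ot.Defs
import Pool.Agent.MP_ca1109_lc.Ov.ME

/-!
# Parts of degree one and of degree at least two, the decomposition of the variance
-/

namespace Pool.Agent.MP_ca1109_lc.Ov

open Finset Pool.Agent.H66 Pool.Agent.MP_ca1109_lc.Mpg Pool.Agent.MP_ca1109_lc.Agp
  Pool.Agent.MP_ca1109_lc.Xp

variable {E : Type} [Fintype E] [DecidableEq E] {Ω : E → Type} [∀ e, Fintype (Ω e)]

/-! ### averages -/

theorem or_avg_sum {A ι : Type*} [Fintype A] (s : Finset ι) (f : ι → A → ℝ) :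
    (avg fun a => ∑ i ∈ s, f i a) = ∑ i ∈ s, avg (f i) := by
  unfold avg
  rw [Finset.sum_comm, Finset.sum_div]

theorem or_avg_mul_left {A : Type*} [Fintype A] (c : ℝ) (f : A → ℝ) :
    (avg fun a => c * f a) = c * avg f := by
  unfold avg
  rw [← Finset.mul_sum, mul_div_assoc]

theorem or_avg_mul_right {A : Type*} [Fintype A] (c : ℝ) (f : A → ℝ) :
    (avg fun a => f a * c) = avg f * c := by
  unfold avg
  rw [← Finset.sum_mul, div_mul_eq_mul_div]

theorem or_avg_add {A : Type*} [Fintype A] (f g : A → ℝ) :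
    (avg fun a => f a + g a) = avg f + avg g := by
  unfold avg
  rw [Finset.sum_add_distrib, add_div]

theorem or_avg_sub {A : Type*} [Fintype A] (f g : A → ℝ) :
    (avg fun a => f a - g a) = avg f - avg g := by
  unfold avg
  rw [Finset.sum_sub_distrib, sub_div]

/-- The square of a sum of orthogonal functions. -/
theorem or_pyth {A ι : Type*} [Fintype A] [Fintype ι] (u : ι → A → ℝ)
    (h : ∀ i j, i ≠ j → (avg fun a => u i a * u j a) = 0) :
    (avg fun a => (∑ i, u i a) ^ 2) = ∑ i, avg fun a => (u i a) ^ 2 := by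
  classical
  have h1 : ∀ a, (∑ i, u i a) ^ 2 = ∑ i, ∑ j, u i a * u j a := by
    intro a
    rw [sq, Finset.sum_mul_sum]
  simp only [h1]
  rw [or_avg_sum]
  refine Finset.sum_congr rfl fun i _ => ?_
  rw [or_avg_sum, Finset.sum_eq_single i]
  · simp only [sq]
  · intro j _ hj
    exact h i j (Ne.symm hj)
  · intro hi
    exact absurd (Finset.mem_univ i) hi

/-! ### parts of degree one -/

theorem c1_dep (e : E) (w : (∀ e, Ω e) → ℝ) : Dep {e} (c1 e w) := by
  intro x x' h
  unfold c1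
  congr 1
  funext y
  congr 1
  funext i
  unfold mix
  split_ifs with hi
  · rfl
  · refine h i ?_
    simpa using hi

variable [∀ e, Nonempty (Ω e)]

theorem c1_avg (e : E) (w : (∀ e, Ω e) → ℝ) : avg (c1 e w) = avg w := avg_mix _ w

theorem c1_off {B : Finset E} {w : (∀ e, Ω e) → ℝ} (hw : Dep B w) {e : E} (he : e ∉ B)
    (x : ∀ e, Ω e) : c1 e w x = avg w := by
  unfold c1
  congr 1
  funext y
  refine hw _ _ fun i hi => me_mix_mem ?_
  simp only [Finset.mem_compl, Finset.mem_singleton]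
  rintro rfl
  exact he hi

theorem or_c1_const (c : ℝ) (e : E) (x : ∀ e, Ω e) : c1 e (fun _ : ∀ e, Ω e => c) x = c := by
  unfold c1
  exact avg_const _

omit [∀ e, Nonempty (Ω e)] in
theorem or_c1_sum {ι : Type*} (s : Finset ι) (f : ι → (∀ e, Ω e) → ℝ) (e : E) (x : ∀ e, Ω e) :
    c1 e (fun x => ∑ i ∈ s, f i x) x = ∑ i ∈ s, c1 e (f i) x := by
  unfold c1
  exact or_avg_sum s _

omit [∀ e, Nonempty (Ω e)] in
theorem or_c1_sub (f g : (∀ e, Ω e) → ℝ) (e : E) (x : ∀ e, Ω e) :
    c1 e (fun x => f x - g x) x = c1 e f x - c1 e g x := by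
  unfold c1
  exact or_avg_sub _ _

theorem or_c1_self {u : (∀ e, Ω e) → ℝ} {e : E} (hu : Dep {e} u) (x : ∀ e, Ω e) :
    c1 e u x = u x := by
  have h1 : ∀ y : ∀ e, Ω e, u (mix ({e}ᶜ) x y) = u x := fun y => hu _ _ fun i hi =>
    me_mix_not_mem (by simpa using hi)
  unfold c1
  simp only [h1]
  exact avg_const _

theorem or_c1_ne (w : (∀ e, Ω e) → ℝ) {e e' : E} (h : e' ≠ e) (x : ∀ e, Ω e) :
    c1 e (c1 e' w) x = avg w := by
  rw [c1_off (c1_dep e' w) (by simpa using Ne.symm h), c1_avg]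

/-! ### parts of degree at least two -/

omit [∀ e, Nonempty (Ω e)] in
theorem hi_dep {B : Finset E} {w : (∀ e, Ω e) → ℝ} (hw : Dep B w) : Dep B (hi B w) := by
  intro x y hxy
  unfold hi
  rw [hw x y hxy]
  congr 1
  refine Finset.sum_congr rfl fun e he => ?_
  rw [c1_dep e w x y fun i hi => hxy i (by rw [Finset.mem_singleton] at hi; rwa [hi])]

theorem or_hi_avg (B : Finset E) (w : (∀ e, Ω e) → ℝ) : avg (hi B w) = 0 := by
  have h1 : ∀ e, (avg fun x => c1 e w x - avg w) = 0 := fun e => by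
    rw [or_avg_sub, avg_const, show (avg fun x => c1 e w x) = avg w from c1_avg e w, sub_self]
  show (avg fun x => w x - avg w - ∑ e ∈ B, (c1 e w x - avg w)) = 0
  rw [or_avg_sub, or_avg_sub, avg_const, or_avg_sum, Finset.sum_eq_zero fun e _ => h1 e]
  ring

theorem hi_avg {B : Finset E} {w : (∀ e, Ω e) → ℝ} (_hw : Dep B w) : avg (hi B w) = 0 :=
  or_hi_avg B w

theorem hi_c1 {B : Finset E} {w : (∀ e, Ω e) → ℝ} (hw : Dep B w) (e : E) (x : ∀ e, Ω e) :
    c1 e (hi B w) x = 0 := by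
  by_cases he : e ∈ B
  · have h1 : c1 e (hi B w) x = c1 e w x - avg w - ∑ e' ∈ B, (c1 e (c1 e' w) x - avg w) := by
      show c1 e (fun x => w x - avg w - ∑ e ∈ B, (c1 e w x - avg w)) x = _
      rw [or_c1_sub (fun x => w x - avg w) (fun x => ∑ e ∈ B, (c1 e w x - avg w)), or_c1_sub,
        or_c1_const, or_c1_sum]
      congr 1
      refine Finset.sum_congr rfl fun e' _ => ?_
      rw [or_c1_sub, or_c1_const]
    rw [h1, Finset.sum_eq_single e]
    · rw [or_c1_self (c1_dep e w)]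
      ring
    · intro e' _ he'
      rw [or_c1_ne w he', sub_self]
    · intro h
      exact absurd he h
  · rw [c1_off (hi_dep hw) he, or_hi_avg]

omit [∀ e, Nonempty (Ω e)] [∀ e, Fintype (Ω e)] in
theorem or_dd_one (A : Finset E) {e : E} {u : (∀ e, Ω e) → ℝ} (hu : Dep {e} u)
    (x y : ∀ e, Ω e) : u x - u (mix A x y) - u (mix Aᶜ x y) + u y = 0 := by
  by_cases he : e ∈ A
  · have h1 : u (mix A x y) = u y := hu _ _ fun i hi => by
      rw [Finset.mem_singleton] at hi
      subst hi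
      exact me_mix_mem he
    have h2 : u (mix Aᶜ x y) = u x := hu _ _ fun i hi => by
      rw [Finset.mem_singleton] at hi
      subst hi
      exact me_mix_not_mem (by simpa using he)
    rw [h1, h2]
    ring
  · have h1 : u (mix A x y) = u x := hu _ _ fun i hi => by
      rw [Finset.mem_singleton] at hi
      subst hi
      exact me_mix_not_mem he
    have h2 : u (mix Aᶜ x y) = u y := hu _ _ fun i hi => by
      rw [Finset.mem_singleton] at hi
      subst hi
      exact me_mix_mem (by simpa using he)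
    rw [h1, h2]
    ring

omit [∀ e, Nonempty (Ω e)] in
theorem hi_dd (A B : Finset E) (w : (∀ e, Ω e) → ℝ) (x y : ∀ e, Ω e) :
    dd A (hi B w) x y = dd A w x y := by
  have h1 : ∑ e ∈ B, (c1 e w x - c1 e w (mix A x y) - c1 e w (mix Aᶜ x y) + c1 e w y) = 0 :=
    Finset.sum_eq_zero fun e _ => or_dd_one A (c1_dep e w) x y
  rw [Finset.sum_add_distrib, Finset.sum_sub_distrib, Finset.sum_sub_distrib] at h1
  unfold dd hi
  simp only [Finset.sum_sub_distrib]
  linarith

/-! ### two sets with at most one common coordinate -/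

theorem or_mul {A A' : Finset E} {e : E} (hA : A ∩ A' ⊆ {e}) {g h : (∀ e, Ω e) → ℝ}
    (hg : Dep A g) (hh : Dep A' h) : (avg fun x => g x * h x) = avg fun x => c1 e g x * h x := by
  rw [← avg_mix (A \ {e}) fun x => g x * h x]
  congr 1
  funext x
  unfold c1
  rw [← or_avg_mul_right]
  congr 1
  funext y
  congr 1
  · apply hg
    intro i hi
    by_cases hie : i = e
    · subst hie
      rw [me_mix_not_mem (by simp), me_mix_not_mem (by simp)]
    · rw [me_mix_mem (by simp [hi, hie]), me_mix_mem (by simpa using hie)]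
  · apply hh
    intro i hi
    apply me_mix_not_mem
    intro hi2
    rw [Finset.mem_sdiff] at hi2
    exact hi2.2 (hA (Finset.mem_inter.2 ⟨hi2.1, hi⟩))

/-- Two sets with at most one common coordinate: conditional independence. -/
theorem c1_mul {A A' : Finset E} {e : E} (h : A ∩ A' ⊆ {e}) {f g : (∀ e, Ω e) → ℝ} (hf : Dep A f)
    (hg : Dep A' g) : (avg fun x => f x * g x) = avg fun x => c1 e f x * c1 e g x := by
  rw [or_mul h hf hg]
  have h2 : (avg fun x => g x * c1 e f x) = avg fun x => c1 e g x * c1 e f x :=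
    or_mul (Finset.inter_subset_right) hg (c1_dep e f)
  simp only [mul_comm (c1 e f _)]
  exact h2

/-! ### the decomposition -/

theorem or_sum {J : Type} [Fintype J] {B : J → Finset E} {w : J → (∀ e, Ω e) → ℝ}
    (hw : ∀ j, Dep (B j) (w j)) (x : ∀ e, Ω e) :
    ∑ j, w j x = ∑ j, avg (w j) + ∑ e, (∑ j, (c1 e (w j) x - avg (w j))) +
      ∑ j, hi (B j) (w j) x := by
  rw [Finset.sum_comm, ← Finset.sum_add_distrib, ← Finset.sum_add_distrib]
  refine Finset.sum_congr rfl fun j _ => ?_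
  have h1 : ∑ e, (c1 e (w j) x - avg (w j)) = ∑ e ∈ B j, (c1 e (w j) x - avg (w j)) := by
    symm
    refine Finset.sum_subset (Finset.subset_univ _) fun e _ he => ?_
    rw [c1_off (hw j) he, sub_self]
  rw [h1]
  unfold hi
  ring

theorem or_cross {J : Type} {B : J → Finset E} {w : J → (∀ e, Ω e) → ℝ}
    (hw : ∀ j, Dep (B j) (w j)) (hl : ∀ i j, i ≠ j → (B i ∩ B j).card ≤ 1) {i j : J} (hij : i ≠ j) :
    (avg fun x => hi (B i) (w i) x * hi (B j) (w j) x) = 0 := by
  rcases Nat.lt_or_ge (B i ∩ B j).card 1 with h | h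
  · have h0 : Disjoint (B i) (B j) := by
      rw [Finset.disjoint_iff_inter_eq_empty, ← Finset.card_eq_zero]
      omega
    rw [me_avg_indep_two h0 (hi_dep (hw i)) (hi_dep (hw j)), or_hi_avg, zero_mul]
  · obtain ⟨e, he⟩ := Finset.card_eq_one.1 (le_antisymm (hl i j hij) h)
    rw [c1_mul (e := e) he.subset (hi_dep (hw i)) (hi_dep (hw j))]
    simp only [hi_c1 (hw i), zero_mul]
    exact avg_const _

theorem or_hi {J : Type} [Fintype J] {B : J → Finset E} {w : J → (∀ e, Ω e) → ℝ}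
    (hw : ∀ j, Dep (B j) (w j)) (hl : ∀ i j, i ≠ j → (B i ∩ B j).card ≤ 1) :
    (avg fun x => (∑ j, hi (B j) (w j) x) ^ 2) = ∑ j, avg fun x => (hi (B j) (w j) x) ^ 2 :=
  or_pyth _ fun _ _ h => or_cross hw hl h

theorem or_var {J : Type} [Fintype J] {B : J → Finset E} {w : J → (∀ e, Ω e) → ℝ}
    (hw : ∀ j, Dep (B j) (w j)) (hl : ∀ i j, i ≠ j → (B i ∩ B j).card ≤ 1) :
    (avg fun x => (∑ j, w j x - avg fun x => ∑ j, w j x) ^ 2) =
      ∑ e, (avg fun x => (∑ j, (c1 e (w j) x - avg (w j))) ^ 2) +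
        ∑ j, avg fun x => (hi (B j) (w j) x) ^ 2 := by
  obtain ⟨s, hs⟩ : ∃ s : E → (∀ e, Ω e) → ℝ, ∀ e x, s e x = ∑ j, (c1 e (w j) x - avg (w j)) :=
    ⟨_, fun _ _ => rfl⟩
  have hsd : ∀ e, Dep {e} (s e) := by
    intro e x y hxy
    rw [hs, hs]
    refine Finset.sum_congr rfl fun j _ => ?_
    rw [c1_dep e (w j) x y hxy]
  have hs0 : ∀ e, avg (s e) = 0 := by
    intro e
    have h1 : avg (s e) = avg fun x => ∑ j, (c1 e (w j) x - avg (w j)) := by
      congr 1
      funext x
      exact hs e x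
    rw [h1, or_avg_sum]
    refine Finset.sum_eq_zero fun j _ => ?_
    rw [or_avg_sub, avg_const, show (avg fun x => c1 e (w j) x) = avg (w j) from c1_avg e (w j),
      sub_self]
  have hm : (avg fun x => ∑ j, w j x) = ∑ j, avg (w j) := or_avg_sum _ _
  have h1 : ∀ x, (∑ j, w j x - avg fun x => ∑ j, w j x) ^ 2 =
      (∑ e, s e x) ^ 2 + (2 * ((∑ e, s e x) * ∑ j, hi (B j) (w j) x) +
        (∑ j, hi (B j) (w j) x) ^ 2) := by
    intro x
    rw [hm, or_sum hw x]
    simp only [hs]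
    ring
  simp only [h1]
  rw [or_avg_add, or_avg_add, or_avg_mul_left, or_hi hw hl]
  have h2 : (avg fun x => (∑ e, s e x) ^ 2) = ∑ e, avg fun x => (s e x) ^ 2 := by
    refine or_pyth _ fun e e' he => ?_
    rw [me_avg_indep_two (S := {e}) (T := {e'}) (by simpa using he) (hsd e) (hsd e'), hs0, zero_mul]
  have h3 : (avg fun x => (∑ e, s e x) * ∑ j, hi (B j) (w j) x) = 0 := by
    have h4 : ∀ x, (∑ e, s e x) * ∑ j, hi (B j) (w j) x =
        ∑ e, ∑ j, s e x * hi (B j) (w j) x := fun x => Finset.sum_mul_sum _ _ _ _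
    simp only [h4]
    rw [or_avg_sum]
    refine Finset.sum_eq_zero fun e _ => ?_
    rw [or_avg_sum]
    refine Finset.sum_eq_zero fun j _ => ?_
    rw [c1_mul (e := e) Finset.inter_subset_left (hsd e) (hi_dep (hw j))]
    simp only [hi_c1 (hw j), mul_zero]
    exact avg_const _
  rw [h2, h3]
  simp only [hs]
  ring

end Pool.Agent.MP_ca1109_lc.Ov
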