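import Pool.Agent.MP_ca1109_lc.Ot.EB
import Pool.Agent.MP_ca1109_lc.Ot.OR
import Pool.Agent.MP_ca1109_lc.Ot.CW
import Pool.Agent.MP_ca1109_lc.Ot.EC
import Pool.Agent.MP_ca1109_lc.Ot.CG
import Pool.Agent.MP_ca1109_lc.Xh.AN

/-!
# Anticoncentration of sums over overlapping sets
-/

namespace Pool.Agent.MP_ca1109_lc.Ov

open Finset Pool.Agent.H66 Pool.Agent.MP_ca1109_lc.Mpg Pool.Agent.MP_ca1109_lc.Agp
  Pool.Agent.MP_ca1109_lc.Xp
open Pool.Agent.MP_ca1109_lc.Dnf (one one_true one_false one_nonneg one_le)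
open Pool.Agent.MP_ca1109_lc.Ph (be)

theorem ac_sum {J A : Type} [Fintype J] [Fintype A] (F : J → A → ℝ) :
    (∑ m : J × A, ((Fintype.card A : ℝ))⁻¹ * F m.1 m.2) = ∑ j, avg (F j) := by
  rw [Fintype.sum_prod_type]
  refine sum_congr rfl fun j _ => ?_
  unfold avg
  rw [← mul_sum, div_eq_inv_mul]

theorem ac_avg3 {A B C : Type} [Fintype A] [Fintype B] [Fintype C] (F : A → B → C → ℝ) :
    (avg fun a : A × B × C => F a.1 a.2.1 a.2.2) = avg fun a => avg fun b => avg fun c => F a b c := by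
  rw [avg_prod fun a (p : B × C) => F a p.1 p.2]
  congr 1
  funext a
  exact avg_prod (F a)

theorem ac_be_norm (t S : ℝ) : ‖be t S‖ = 1 := by
  unfold be
  rw [Complex.norm_exp_ofReal_mul_I]

theorem ac_be_sum {J : Type} [Fintype J] (t : ℝ) (g : J → ℝ) : be t (∑ j, g j) = ∏ j, be t (g j) := by
  unfold be
  rw [← Complex.exp_sum]
  congr 1
  push_cast
  rw [mul_sum, sum_mul]

theorem ac_close {E : Type} [Fintype E] [DecidableEq E] {Ω : E → Type} [∀ e, Fintype (Ω e)] {J : Type}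
    [Fintype J] {ε₀ : ℝ} {B : J → Finset E} {g : J → (∀ e, Ω e) → ℝ} (hg : ∀ j, Dep (B j) (g j))
    {Θ : Type} [Fintype Θ] {Y : Θ → ∀ e, Ω e} (hY : Fool ε₀ B Y) (t : ℝ) :
    ‖(av fun ω => be t (∑ j, g j (Y ω))) - av fun x => be t (∑ j, g j x)‖ ≤ ε₀ := by
  have h := hY (fun j x => be t (g j x)) (fun j x y hxy => by
    show be t (g j x) = be t (g j y)
    rw [hg j x y hxy]) fun j x => (ac_be_norm _ _).le
  simp only [ac_be_sum]
  exact h

/-- Anticoncentration from a family of differences. -/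
theorem ac_anti {J A Θ : Type} [Fintype J] [Fintype A] [Nonempty A] [Fintype Θ] [Nonempty Θ]
    (d : J → A → ℝ) {D η V₀ ε : ℝ} (hD : 0 < D) (hη : 0 < η) (hη1 : η ≤ 1) (hε : 0 ≤ ε)
    (hd : ∀ j a, |d j a| ≤ D) (hW : 0 < ∑ j, avg fun a => (d j a) ^ 2)
    (hV : V₀ * D ^ 2 ≤ η ^ 2 / 2 * ∑ j, avg fun a => (d j a) ^ 2) (S : Θ → ℝ) (θ : ℝ)
    (h : ∀ t : ℝ, V₀ ≤ (∑ j, avg fun a => ‖1 - be t (d j a)‖ ^ 2) → ‖av fun ω => be t (S ω)‖ ≤ ε) :
    (avg fun ω => one (|S ω - θ| ≤ D)) ≤ 128 * η + 4 * ε := by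
  have hmin : ∀ j a, min 1 ((d j a / D) ^ 2) = (d j a / D) ^ 2 := by
    intro j a
    apply min_eq_right
    rw [← sq_abs, abs_div, abs_of_pos hD]
    have h1 : |d j a| / D ≤ 1 := (div_le_one hD).2 (hd j a)
    exact pow_le_one₀ (by positivity) h1
  have e1 : (∑ m : J × A, ((Fintype.card A : ℝ))⁻¹ * min 1 ((d m.1 m.2 / D) ^ 2)) =
      (∑ j, avg fun a => (d j a) ^ 2) / D ^ 2 := by
    rw [ac_sum fun j a => min 1 ((d j a / D) ^ 2), sum_div]
    refine sum_congr rfl fun j _ => ?_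
    have : (fun a => min 1 ((d j a / D) ^ 2)) = fun a => (1 / D ^ 2) * (d j a) ^ 2 := by
      funext a
      rw [hmin, div_pow]
      ring
    rw [this, avg_mul_left]
    ring
  refine Xh.anticonc (univ : Finset (J × A)) (fun _ => ((Fintype.card A : ℝ))⁻¹)
    (fun m => d m.1 m.2) (fun m _ => by positivity) (D := D) (η := η) (V₀ := V₀) hD hη hη1 hε ?_ ?_
    S θ fun t ht => ?_
  · rw [e1]
    positivity
  · rw [e1, ← mul_div_assoc, le_div_iff₀ (by positivity)]
    exact hV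
  · refine h t (ht.trans (le_of_eq ?_))
    exact ac_sum fun j a => ‖1 - be t (d j a)‖ ^ 2

theorem ac_main (r : ℕ) (b : ℝ) {ε : ℝ} (hε : 0 < ε) : ∃ δ K₀ ε₀ : ℝ, 0 < δ ∧ 0 < K₀ ∧ 0 < ε₀ ∧
    ∀ {E J : Type} [Fintype E] [DecidableEq E] [Fintype J] [DecidableEq J] {Ω : E → Type}
    [∀ e, Fintype (Ω e)] [∀ e, Nonempty (Ω e)] {B : J → Finset E} {w : J → (∀ e, Ω e) → ℝ},
    (∀ j, Dep (B j) (w j)) → (∀ j x, |w j x| ≤ b) →
    (∀ e, (univ.filter fun j => e ∈ B j).card ≤ r) → (∀ i j, i ≠ j → (B i ∩ B j).card ≤ 1) →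
    ∀ σ : ℝ, K₀ ≤ σ → σ ^ 2 ≤ (avg fun x => (∑ j, w j x - avg fun x => ∑ j, w j x) ^ 2) →
    ∀ {Θ : Type} [Fintype Θ] [Nonempty Θ] (Y : Θ → ∀ e, Ω e), Fool ε₀ B Y → ∀ θ : ℝ,
      (avg fun ω => one (|∑ j, w j (Y ω) - θ| ≤ δ * σ)) ≤ ε := by
  classical
  -- the constants
  obtain ⟨V₁, hV₁, hec⟩ := ec_chf r (show 0 < ε / 64 by positivity)
  obtain ⟨R₁, hR₁, hcg⟩ := cg_conc 1 (show 0 < ε / 8 by positivity)
  obtain ⟨V₂, hV₂⟩ : ∃ V₂ : ℝ, V₂ = max 0 (4 * Real.log (64 / ε)) := ⟨_, rfl⟩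
  have hV₂0 : 0 ≤ V₂ := by rw [hV₂]; exact le_max_left _ _
  have hV₂1 : 4 * Real.log (64 / ε) ≤ V₂ := by rw [hV₂]; exact le_max_right _ _
  obtain ⟨η, hη⟩ : ∃ η : ℝ, η = min 1 (ε / 1024) := ⟨_, rfl⟩
  have hη0 : 0 < η := by rw [hη]; exact lt_min one_pos (by positivity)
  have hη1 : η ≤ 1 := by rw [hη]; exact min_le_left _ _
  have hη2 : 128 * η ≤ ε / 8 := by
    have : η ≤ ε / 1024 := by rw [hη]; exact min_le_right _ _
    linarith
  obtain ⟨κ, hκ⟩ : ∃ κ : ℝ, κ = η / (2 * (1 + R₁) * (V₂ + 1)) := ⟨_, rfl⟩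
  have hκ0 : 0 < κ := by rw [hκ]; positivity
  have hκ1 : (1 + R₁) * κ * (2 * (V₂ + 1)) = η := by
    rw [hκ]
    field_simp
  have hκ2 : κ ≤ 1 / 2 := by
    have h1 : κ * 2 ≤ (1 + R₁) * κ * (2 * (V₂ + 1)) := by
      have h2 : 0 ≤ R₁ * κ := by positivity
      have h3 : 0 ≤ κ * V₂ := by positivity
      have h4 : 0 ≤ R₁ * κ * V₂ := by positivity
      nlinarith
    linarith
  obtain ⟨δ, hδ⟩ : ∃ δ : ℝ, δ = η * κ / (V₁ + 1) := ⟨_, rfl⟩
  have hδ0 : 0 < δ := by rw [hδ]; positivity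
  have hδ1 : δ * (V₁ + 1) = η * κ := by
    rw [hδ]
    field_simp
  have hδ2 : δ ≤ κ := by
    have h1 : δ ≤ δ * (V₁ + 1) := by nlinarith
    have h2 : η * κ ≤ κ := by nlinarith
    linarith
  refine ⟨δ, 4 * (r + 1) * (|b| + 1) / δ, ε / 32, hδ0, by positivity, by positivity, ?_⟩
  intro E J _ _ _ _ Ω _ _ B w hw hb hr hl σ hσ hvar Θ _ _ Y hY θ
  have hb0 : 0 < |b| + 1 := by positivity
  have hb' : ∀ j x, |w j x| ≤ |b| + 1 := fun j x => (hb j x).trans (by linarith [le_abs_self b])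
  have hr0 : (0 : ℝ) ≤ r := Nat.cast_nonneg r
  have hσD : 4 * (r + 1) * (|b| + 1) ≤ δ * σ := by
    rw [div_le_iff₀ hδ0] at hσ
    linarith
  have hD0 : 0 < δ * σ := lt_of_lt_of_le (by positivity) hσD
  have hσ0 : 0 < σ := by
    by_contra h
    have : δ * σ ≤ 0 := mul_nonpos_of_nonneg_of_nonpos hδ0.le (not_lt.1 h)
    linarith
  obtain ⟨v, hv⟩ : ∃ v : J → (∀ e, Ω e) → ℝ, v = fun j => hi (B j) (w j) := ⟨_, rfl⟩
  obtain ⟨W, hWd⟩ : ∃ W : E → (∀ e, Ω e) → ℝ, W = fun e x => ∑ j, (c1 e (w j) x - avg (w j)) :=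
    ⟨_, rfl⟩
  have hvdep : ∀ j, Dep (B j) (v j) := by
    intro j
    rw [hv]
    exact hi_dep (hw j)
  have hvar2 : σ ^ 2 ≤ ∑ e, (avg fun x => (W e x) ^ 2) + ∑ j, avg fun x => (v j x) ^ 2 := by
    rw [hWd, hv]
    exact hvar.trans (le_of_eq (or_var hw hl))
  have hsum : ∀ x, ∑ j, w j x = ∑ j, avg (w j) + ∑ e, W e x + ∑ j, v j x := by
    intro x
    rw [hWd, hv]
    exact or_sum hw x
  rcases le_or_gt (κ ^ 2 * σ ^ 2) (∑ j, avg fun x => (v j x) ^ 2) with hV | hV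
  · -- large parts of degree at least two
    have hE : 2 * (κ ^ 2 * σ ^ 2) ≤ ∑ j, avg fun a : (E → Bool) × (∀ e, Ω e) × (∀ e, Ω e) =>
        (dd (tr a.1) (w j) a.2.1 a.2.2) ^ 2 := by
      refine (mul_le_mul_of_nonneg_left hV zero_le_two).trans ?_
      rw [mul_sum]
      refine sum_le_sum fun j _ => ?_
      rw [hv, ac_avg3 fun (R : E → Bool) (x y : ∀ e, Ω e) => (dd (tr R) (w j) x y) ^ 2]
      exact eb_main (hw j)
    have key := ac_anti (A := (E → Bool) × (∀ e, Ω e) × (∀ e, Ω e)) (Θ := Θ)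
      (fun j a => dd (tr a.1) (w j) a.2.1 a.2.2) (D := δ * σ) (η := η) (V₀ := V₁)
      (ε := ε / 64 + ε / 32) hD0 hη0 hη1 (by positivity) (fun j a => by
        have h1 := abs_le.1 (hb' j a.2.1)
        have h2 := abs_le.1 (hb' j a.2.2)
        have h3 := abs_le.1 (hb' j (mix (tr a.1) a.2.1 a.2.2))
        have h4 := abs_le.1 (hb' j (mix (tr a.1)ᶜ a.2.1 a.2.2))
        have h5 : 4 * (|b| + 1) ≤ 4 * (r + 1) * (|b| + 1) := by nlinarith
        refine le_trans ?_ (h5.trans hσD)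
        unfold dd
        rw [abs_le]
        constructor <;> linarith [h1.1, h1.2, h2.1, h2.2, h3.1, h3.2, h4.1, h4.2])
      (lt_of_lt_of_le (by positivity) hE) (by
        have h1 : V₁ * (δ * σ) ^ 2 ≤ (η * κ * σ) ^ 2 := by
          rw [← hδ1]
          have h2 : V₁ ≤ (V₁ + 1) ^ 2 := by nlinarith
          have h3 : 0 ≤ (δ * σ) ^ 2 := by positivity
          nlinarith [mul_le_mul_of_nonneg_right h2 h3]
        have h2 : (η * κ * σ) ^ 2 = η ^ 2 / 2 * (2 * (κ ^ 2 * σ ^ 2)) := by ring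
        rw [h2] at h1
        exact h1.trans (mul_le_mul_of_nonneg_left hE (by positivity)))
      (fun ω => ∑ j, w j (Y ω)) θ (fun t ht => by
        have h1 := hec hw hr hl t (ht.trans (le_of_eq (sum_congr rfl fun j _ =>
          ac_avg3 fun (R : E → Bool) (x y : ∀ e, Ω e) => ‖1 - be t (dd (tr R) (w j) x y)‖ ^ 2)))
        have h2 := ac_close hw hY t
        have h3 := norm_add_le ((av fun ω => be t (∑ j, w j (Y ω))) - av fun x => be t (∑ j, w j x))
          (av fun x => be t (∑ j, w j x))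
        rw [sub_add_cancel] at h3
        linarith)
    linarith
  · -- large parts of degree one
    have hW2 : 3 / 4 * σ ^ 2 ≤ ∑ e, avg fun x => (W e x) ^ 2 := by
      have h1 : κ ^ 2 ≤ 1 / 4 := by nlinarith
      have h2 : κ ^ 2 * σ ^ 2 ≤ 1 / 4 * σ ^ 2 := mul_le_mul_of_nonneg_right h1 (sq_nonneg σ)
      linarith
    -- the parts of degree at least two are concentrated
    have q1 := hcg (fun x => ∑ j, v j x) 0 (κ * σ) (by positivity) (by
      simp only [sub_zero]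
      rw [hv, or_hi hw hl, one_mul, mul_pow]
      rw [hv] at hV
      exact hV.le) Y (ε / 32) fun t => ac_close hvdep hY t
    simp only [sub_zero] at q1
    -- the parts of degree one
    have hoff : ∀ j e, e ∉ B j → ∀ x, c1 e (w j) x - avg (w j) = 0 := by
      intro j e he x
      rw [c1_off (hw j) he, sub_self]
    obtain ⟨g, hg⟩ : ∃ g : J → (∀ e, Ω e) → ℝ, g = fun j x => ∑ e, (c1 e (w j) x - avg (w j)) :=
      ⟨_, rfl⟩
    have hgdep : ∀ j, Dep (B j) (g j) := by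
      intro j x y hxy
      rw [hg]
      refine sum_congr rfl fun e _ => ?_
      by_cases he : e ∈ B j
      · rw [c1_dep e (w j) x y fun e' he' => ?_]
        rw [mem_singleton.1 he']
        exact hxy e he
      · rw [hoff j e he, hoff j e he]
    have hgW : ∀ x, ∑ e, W e x = ∑ j, g j x := by
      intro x
      rw [hWd, hg]
      exact sum_comm
    have havgb : ∀ {A : Type} [Fintype A] [Nonempty A] (f : A → ℝ) (c : ℝ), (∀ a, |f a| ≤ c) →
        |avg f| ≤ c := by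
      intro A _ _ f c hf
      rw [abs_le]
      constructor
      · rw [← avg_const (A := A) (-c)]
        exact avg_mono fun a => (abs_le.1 (hf a)).1
      · rw [← avg_const (A := A) c]
        exact avg_mono fun a => (abs_le.1 (hf a)).2
    have hWb : ∀ e x, |W e x| ≤ r * (2 * (|b| + 1)) := by
      intro e x
      rw [hWd]
      refine (abs_sum_le_sum_abs _ _).trans ?_
      rw [← sum_filter_add_sum_filter_not univ fun j => e ∈ B j]
      have h1 : (∑ j ∈ univ.filter (fun j => ¬ e ∈ B j), |c1 e (w j) x - avg (w j)|) = 0 :=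
        sum_eq_zero fun j hj => by rw [hoff j e (mem_filter.1 hj).2 x, abs_zero]
      rw [h1, add_zero]
      have h2 : ∀ j ∈ univ.filter (fun j => e ∈ B j), |c1 e (w j) x - avg (w j)| ≤ 2 * (|b| + 1) := by
        intro j _
        have h3 := havgb (fun y : ∀ e, Ω e => w j (mix ({e}ᶜ) x y)) _ fun y => hb' j _
        have h4 := havgb (w j) _ fun y => hb' j y
        have h5 := abs_le.1 h3
        have h6 := abs_le.1 h4
        unfold c1
        rw [abs_le]
        constructor <;> linarith [h5.1, h5.2, h6.1, h6.2]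
      refine (sum_le_sum h2).trans ?_
      rw [sum_const, nsmul_eq_mul]
      exact mul_le_mul_of_nonneg_right (by exact_mod_cast hr e) (by positivity)
    have hWdep : ∀ e, Dep {e} (W e) := by
      intro e x y hxy
      rw [hWd]
      exact sum_congr rfl fun j _ => by rw [c1_dep e (w j) x y hxy]
    have hW0 : ∀ e, avg (W e) = 0 := by
      intro e
      rw [hWd]
      show (avg fun x => ∑ j, (c1 e (w j) x - avg (w j))) = 0
      rw [avg_sum]
      refine sum_eq_zero fun j _ => ?_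
      rw [avg_sub, c1_avg, avg_const, sub_self]
    have hWW : ∀ e, (avg fun a : (∀ e, Ω e) × (∀ e, Ω e) => (W e a.1 - W e a.2) ^ 2) =
        2 * avg fun x => (W e x) ^ 2 := by
      intro e
      rw [avg_prod fun x y => (W e x - W e y) ^ 2]
      have h1 : ∀ x, (avg fun y => (W e x - W e y) ^ 2) =
          (W e x) ^ 2 + (avg fun y => (W e y) ^ 2) := by
        intro x
        have h2 : (fun y => (W e x - W e y) ^ 2) =
            fun y => ((W e x) ^ 2 + (W e y) ^ 2) - (2 * W e x) * W e y := by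
          funext y
          ring
        rw [h2, avg_sub, avg_add, avg_const, avg_mul_left, hW0]
        ring
      simp only [h1]
      rw [avg_add, avg_const]
      ring
    obtain ⟨D₂, hD₂⟩ : ∃ D₂ : ℝ, D₂ = (δ + R₁ * κ) * σ := ⟨_, rfl⟩
    have hD₂0 : 0 < D₂ := by rw [hD₂]; positivity
    have hD₂1 : δ * σ ≤ D₂ := by
      rw [hD₂]
      have : 0 ≤ R₁ * κ * σ := by positivity
      linarith
    have hE : 2 * (3 / 4 * σ ^ 2) ≤ ∑ e, avg fun a : (∀ e, Ω e) × (∀ e, Ω e) =>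
        (W e a.1 - W e a.2) ^ 2 := by
      simp only [hWW]
      rw [← mul_sum]
      exact mul_le_mul_of_nonneg_left hW2 zero_le_two
    have q2 := ac_anti (A := (∀ e, Ω e) × (∀ e, Ω e)) (Θ := Θ)
      (fun e a => W e a.1 - W e a.2) (D := D₂) (η := η) (V₀ := V₂)
      (ε := ε / 64 + ε / 32) hD₂0 hη0 hη1 (by positivity) (fun e a => by
        have h1 := abs_le.1 (hWb e a.1)
        have h2 := abs_le.1 (hWb e a.2)
        have h5 : 4 * r * (|b| + 1) ≤ 4 * (r + 1) * (|b| + 1) := by nlinarith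
        refine le_trans ?_ ((h5.trans hσD).trans hD₂1)
        rw [abs_le]
        constructor <;> linarith [h1.1, h1.2, h2.1, h2.2])
      (lt_of_lt_of_le (by positivity) hE) (by
        refine le_trans ?_ (mul_le_mul_of_nonneg_left hE (by positivity))
        have h1 : D₂ ≤ (1 + R₁) * κ * σ := by
          rw [hD₂]
          refine mul_le_mul_of_nonneg_right ?_ hσ0.le
          linarith
        have h2 : D₂ ^ 2 ≤ ((1 + R₁) * κ * σ) ^ 2 := pow_le_pow_left₀ hD₂0.le h1 2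
        have h3 : V₂ ≤ (2 * (V₂ + 1)) ^ 2 := by nlinarith
        have h4 : V₂ * D₂ ^ 2 ≤ (2 * (V₂ + 1)) ^ 2 * ((1 + R₁) * κ * σ) ^ 2 / 4 := by
          have h5 : V₂ ≤ (2 * (V₂ + 1)) ^ 2 / 4 := by nlinarith
          calc V₂ * D₂ ^ 2 ≤ (2 * (V₂ + 1)) ^ 2 / 4 * ((1 + R₁) * κ * σ) ^ 2 :=
                mul_le_mul h5 h2 (by positivity) (by positivity)
            _ = _ := by ring
        have h6 : (2 * (V₂ + 1)) ^ 2 * ((1 + R₁) * κ * σ) ^ 2 / 4 = (η * σ) ^ 2 / 4 := by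
          rw [← hκ1]
          ring
        rw [h6] at h4
        have h7 : 0 ≤ (η * σ) ^ 2 := sq_nonneg _
        nlinarith)
      (fun ω => ∑ e, W e (Y ω)) (θ - ∑ j, avg (w j)) (fun t ht => by
        have h1 := cw_chf hWdep t
        have h2 : (∑ e, avg fun a : (∀ e, Ω e) × (∀ e, Ω e) => ‖1 - be t (W e a.1 - W e a.2)‖ ^ 2) =
            ∑ e, avg fun x : ∀ e, Ω e => avg fun y : ∀ e, Ω e => ‖1 - be t (W e x - W e y)‖ ^ 2 :=
          sum_congr rfl fun e _ => avg_prod fun x y => ‖1 - be t (W e x - W e y)‖ ^ 2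
        rw [h2] at ht
        have h3 : Real.exp (-(1 / 4) * ∑ e, avg fun x : ∀ e, Ω e => avg fun y : ∀ e, Ω e =>
            ‖1 - be t (W e x - W e y)‖ ^ 2) ≤ ε / 64 := by
          refine (Real.exp_le_exp.2 (show -(1 / 4) * (∑ e, avg fun x : ∀ e, Ω e =>
            avg fun y : ∀ e, Ω e => ‖1 - be t (W e x - W e y)‖ ^ 2) ≤ Real.log (ε / 64) by
              have e1 : Real.log (64 / ε) = -Real.log (ε / 64) := by
                rw [← Real.log_inv, inv_div]
              rw [e1] at hV₂1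
              linarith)).trans ?_
          rw [Real.exp_log (by positivity)]
        have h4 := ac_close hgdep hY t
        have h5 := norm_add_le ((av fun ω => be t (∑ j, g j (Y ω))) - av fun x => be t (∑ j, g j x))
          (av fun x => be t (∑ j, g j x))
        rw [sub_add_cancel] at h5
        simp only [← hgW] at h4 h5
        linarith)
    have hpt : ∀ ω, one (|∑ j, w j (Y ω) - θ| ≤ δ * σ) ≤
        one (R₁ * (κ * σ) ≤ |∑ j, v j (Y ω)|) +
          one (|∑ e, W e (Y ω) - (θ - ∑ j, avg (w j))| ≤ D₂) := by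
      intro ω
      by_cases h1 : R₁ * (κ * σ) ≤ |∑ j, v j (Y ω)|
      · rw [one_true h1]
        have h2 := one_nonneg (|∑ e, W e (Y ω) - (θ - ∑ j, avg (w j))| ≤ D₂)
        have h3 := one_le (|∑ j, w j (Y ω) - θ| ≤ δ * σ)
        linarith
      · by_cases h2 : |∑ j, w j (Y ω) - θ| ≤ δ * σ
        · have h3 : |∑ e, W e (Y ω) - (θ - ∑ j, avg (w j))| ≤ D₂ := by
            rw [hsum] at h2
            have h4 := abs_le.1 h2
            have h5 := abs_le.1 (not_le.1 h1).le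
            rw [hD₂, abs_le]
            constructor <;> nlinarith [h4.1, h4.2, h5.1, h5.2]
          rw [one_true h3]
          have h4 := one_nonneg (R₁ * (κ * σ) ≤ |∑ j, v j (Y ω)|)
          have h5 := one_le (|∑ j, w j (Y ω) - θ| ≤ δ * σ)
          linarith
        · rw [one_false h2]
          exact add_nonneg (one_nonneg _) (one_nonneg _)
    have h6 := avg_mono hpt
    rw [avg_add] at h6
    linarith

end Pool.Agent.MP_ca1109_lc.Ov
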