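import Pool.Agent.MP_ca1109_lc.Ot.AC
import Pool.Agent.MP_ca1109_lc.Ov.CE
import Pool.Agent.MP_ca1109_lc.Ov.GT

/-!
# Row CB: anticoncentration for strings
-/

namespace Pool.Agent.MP_ca1109_lc.Ov

open Finset Pool.Agent.H66 Pool.Agent.MP_ca1109_lc.Mpg Pool.Agent.MP_ca1109_lc.Agp
  Pool.Agent.MP_ca1109_lc.Xp
open Pool.Agent.MP_ca1109_lc.Dnf (one)
open Pool.Agent.MP_ca1109_lc.Ph (be)

section cells

variable {n : ℕ} {J : Type} [Fintype J]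

theorem cb_dep {A β : Type} {I : J → Finset (Fin n)} {j : J} {w : (Fin n → A) → β}
    (hw : Dep (I j) w) :
    Dep (Ω := CeO (ceRep I) A) (ceB I j) (fun X => w (ceAsm (ceRep I) A X)) := by
  intro X Y h
  refine hw _ _ fun i hi => ?_
  have h1 := h (ceRep I i) (mem_image_of_mem _ hi)
  change X (ceRep I i) ⟨i, rfl⟩ = Y (ceRep I i) ⟨i, rfl⟩
  rw [h1]

theorem cb_dep' {A β : Type} {I : J → Finset (Fin n)} {j : J}
    {f : (∀ e, CeO (ceRep I) A e) → β} (hf : Dep (Ω := CeO (ceRep I) A) (ceB I j) f) :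
    Dep (I j) (fun x => f ((ceAsm (ceRep I) A).symm x)) := by
  intro x y h
  refine hf _ _ fun e he => ?_
  funext p
  change x p.1 = y p.1
  refine h p.1 ?_
  rw [ce_mem I p.1 j, p.2]
  exact (ceB_mem he).1

theorem cb_rd {r : ℕ} {I : J → Finset (Fin n)}
    (h : ∀ i, (univ.filter fun j => i ∈ I j).card ≤ r) (e : Fin n) :
    (univ.filter fun j => e ∈ ceB I j).card ≤ r := by
  refine (card_le_card ?_).trans (h e)
  intro j hj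
  rw [mem_filter] at hj ⊢
  exact ⟨mem_univ _, (ceB_mem hj.2).1⟩

theorem cb_lin {I : J → Finset (Fin n)}
    (h : ∀ j j', j ≠ j' → ∀ i ∈ I j ∩ I j', ∀ i' ∈ I j ∩ I j', ∀ l, i ∈ I l ↔ i' ∈ I l)
    (i j : J) (hij : i ≠ j) : (ceB I i ∩ ceB I j).card ≤ 1 := by
  refine card_le_one.2 fun e he e' he' => ?_
  rw [mem_inter] at he he'
  have h1 := ceB_mem he.1
  have h2 := ceB_mem he.2
  have h3 := ceB_mem he'.1
  have h4 := ceB_mem he'.2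
  have h5 : ceRep I e = ceRep I e' := ce_congr I ⟨i, h1.1⟩ fun l =>
    h i j hij e (mem_inter.2 ⟨h1.1, h2.1⟩) e' (mem_inter.2 ⟨h3.1, h4.1⟩) l
  rw [h1.2, h3.2] at h5
  exact h5

theorem cb_fool {ε₀ : ℝ} {I : J → Finset (Fin n)} {Θ : Type} [Fintype Θ] {A : Type} [Fintype A]
    {Y : Θ → Fin n → A} (h : Fool ε₀ I Y) :
    Fool (Ω := CeO (ceRep I) A) ε₀ (ceB I) (fun ω => (ceAsm (ceRep I) A).symm (Y ω)) := by
  intro f hf hn
  have h1 := h (fun j x => f j ((ceAsm (ceRep I) A).symm x)) (fun j => cb_dep' (hf j))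
    (fun j x => hn j _)
  rw [ce_av_equiv (ceAsm (ceRep I) A).symm fun X => ∏ j, f j X] at h1
  exact h1

end cells

theorem ac_bits (r : ℕ) (b : ℝ) {ε : ℝ} (hε : 0 < ε) : ∃ δ K₀ ε₀ : ℝ, 0 < δ ∧ 0 < K₀ ∧ 0 < ε₀ ∧
    ∀ {n q : ℕ} {I : Fin q → Finset (Fin n)}, Over r I → ∀ {w : Fin q → (Fin n → Bool) → ℝ},
    (∀ j, Dep (I j) (w j)) → (∀ j x, |w j x| ≤ b) →
    ∀ σ : ℝ, K₀ ≤ σ → σ ^ 2 ≤ (avg fun x => (∑ j, w j x - avg fun x => ∑ j, w j x) ^ 2) →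
    ∀ {Θ : Type} [Fintype Θ] [Nonempty Θ] (Y : Θ → Fin n → Bool), Fool ε₀ I Y → ∀ θ : ℝ,
      (avg fun ω => one (|∑ j, w j (Y ω) - θ| ≤ δ * σ)) ≤ ε := by
  obtain ⟨δ, K₀, ε₀, hδ, hK, hε₀, H⟩ := ac_main r b hε
  refine ⟨δ, K₀, ε₀, hδ, hK, hε₀, ?_⟩
  intro n q I hI w hw hb σ hσ hv Θ _ _ Y hY θ
  have h1 := H (Ω := CeO (ceRep I) Bool) (B := ceB I)
    (w := fun j X => w j (ceAsm (ceRep I) Bool X)) (fun j => cb_dep (hw j)) (fun j x => hb j _)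
    (cb_rd hI.1) (cb_lin hI.2) σ hσ (hv.trans (le_of_eq ?_))
    (fun ω => (ceAsm (ceRep I) Bool).symm (Y ω)) (cb_fool hY) θ
  · simpa only [Equiv.apply_symm_apply] using h1
  · have h2 := avg_equiv (ceAsm (ceRep I) Bool) fun x => ∑ j, w j x
    rw [h2]
    exact (avg_equiv (ceAsm (ceRep I) Bool)
      fun x => (∑ j, w j x - avg fun x => ∑ j, w j x) ^ 2).symm

end Pool.Agent.MP_ca1109_lc.Ov
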