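import Pool.Agent.MP_ca1109_lc.Ov.Defs
import Pool.Agent.MP_ca1109_lc.Ph.Defs

/-!
# Thresholds over overlapping blocks: definitions

`∀ e, Ω e` (`e : E`) is a finite product space with the uniform distribution.

* `c1 e w`: the average of `w` over the coordinates different from `e`.
* `hi B w`: the part of `w` of degree at least two over the coordinates in `B`.
* `dd A w x y`: the second difference of `w` for the bipartition `A`, `Aᶜ`.
* `Fool ε₀ B Y`: `Y` fools products of bounded functions of the sets `B j`.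
-/

namespace Pool.Agent.MP_ca1109_lc.Ov

open Finset Pool.Agent.H66 Pool.Agent.MP_ca1109_lc.Mpg Pool.Agent.MP_ca1109_lc.Agp
  Pool.Agent.MP_ca1109_lc.Xp

variable {E : Type} [Fintype E] [DecidableEq E] {Ω : E → Type} [∀ e, Fintype (Ω e)]

/-- The average over the coordinates different from `e`. -/
noncomputable def c1 (e : E) (w : (∀ e, Ω e) → ℝ) (x : ∀ e, Ω e) : ℝ :=
  avg fun y : ∀ e, Ω e => w (mix ({e}ᶜ) x y)

/-- The part of degree at least two over the coordinates in `B`. -/
noncomputable def hi (B : Finset E) (w : (∀ e, Ω e) → ℝ) (x : ∀ e, Ω e) : ℝ :=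
  w x - avg w - ∑ e ∈ B, (c1 e w x - avg w)

/-- The second difference. -/
def dd (A : Finset E) (w : (∀ e, Ω e) → ℝ) (x y : ∀ e, Ω e) : ℝ :=
  w x - w (mix A x y) - w (mix Aᶜ x y) + w y

/-- `Y` fools products of bounded functions of the sets `B j`. -/
def Fool {J : Type} [Fintype J] (ε₀ : ℝ) (B : J → Finset E) {Θ : Type} [Fintype Θ]
    (Y : Θ → ∀ e, Ω e) : Prop :=
  ∀ f : J → (∀ e, Ω e) → ℂ, (∀ j, Dep (B j) (f j)) → (∀ j x, ‖f j x‖ ≤ 1) →
    ‖(av fun ω => ∏ j, f j (Y ω)) - av fun x => ∏ j, f j x‖ ≤ ε₀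

end Pool.Agent.MP_ca1109_lc.Ov
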