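import Pool.Agent.MP_ca1109_lc.Ot.Defs
import Pool.Agent.MP_ca1109_lc.Ov.ME

/-!
# Functions without parts of degree zero and one
-/

namespace Pool.Agent.MP_ca1109_lc.Ov

open Finset Pool.Agent.H66 Pool.Agent.MP_ca1109_lc.Mpg Pool.Agent.MP_ca1109_lc.Agp
  Pool.Agent.MP_ca1109_lc.Xp

variable {E : Type} [Fintype E] [DecidableEq E] {Ω : E → Type} [∀ e, Fintype (Ω e)]

/-- The average over the coordinates in `A`. -/
noncomputable def eaN (A : Finset E) (v : (∀ e, Ω e) → ℝ) (x : ∀ e, Ω e) : ℝ :=
  avg fun y : ∀ e, Ω e => v (mix A x y)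

/-- The square norm. -/
noncomputable def eaQ (v : (∀ e, Ω e) → ℝ) : ℝ := avg fun x => (v x) ^ 2

theorem eaQ_nonneg (v : (∀ e, Ω e) → ℝ) : 0 ≤ eaQ v := avg_nonneg fun _ => sq_nonneg _

theorem eaN_sub (A : Finset E) (f g : (∀ e, Ω e) → ℝ) (x : ∀ e, Ω e) :
    eaN A (fun x => f x - g x) x = eaN A f x - eaN A g x := avg_sub _ _

variable [∀ e, Nonempty (Ω e)]

theorem eaN_comp (A B : Finset E) (v : (∀ e, Ω e) → ℝ) (x : ∀ e, Ω e) :
    eaN A (eaN B v) x = eaN (A ∪ B) v x := by
  unfold eaN
  rw [← avg_mix B fun y => v (mix (A ∪ B) x y)]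
  congr 1
  funext y
  congr 1
  funext z
  congr 1
  funext e
  unfold mix
  by_cases h1 : e ∈ B <;> by_cases h2 : e ∈ A <;> simp [h1, h2]

theorem eaN_ip (A : Finset E) (f g : (∀ e, Ω e) → ℝ) :
    (avg fun x => eaN A f x * g x) = avg fun x => eaN A f x * eaN A g x := by
  rw [← avg_mix A fun x => eaN A f x * g x]
  congr 1
  funext x
  have h1 : (fun y => eaN A f (mix A x y) * g (mix A x y)) = fun y => eaN A f x * g (mix A x y) := by
    funext y
    congr 1
    unfold eaN
    congr 1
    funext z
    congr 1
    funext e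
    unfold mix
    by_cases h : e ∈ A <;> simp [h]
  rw [h1, avg_mul_left]
  rfl

theorem ea_pyth (A : Finset E) (f : (∀ e, Ω e) → ℝ) :
    eaQ f = eaQ (eaN A f) + eaQ (fun x => f x - eaN A f x) := by
  have h1 := eaN_ip A f f
  unfold eaQ
  rw [← avg_add]
  have h2 : (avg fun x => eaN A f x * f x) = avg fun x => eaN A f x ^ 2 := by
    rw [h1]
    congr 1
    funext x
    ring
  have h3 : (avg fun x => eaN A f x ^ 2 + (f x - eaN A f x) ^ 2) =
      avg fun x => (f x) ^ 2 + 2 * (eaN A f x ^ 2 - eaN A f x * f x) := by
    congr 1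
    funext x
    ring
  rw [h3, avg_add, avg_mul_left, avg_sub, h2]
  ring

theorem ea_le (A : Finset E) (f : (∀ e, Ω e) → ℝ) : eaQ (eaN A f) ≤ eaQ f := by
  rw [ea_pyth A f]
  linarith [eaQ_nonneg (fun x => f x - eaN A f x)]

/-- The energy after averaging over a random part of `s`. -/
noncomputable def eaS (s : Finset E) (v : (∀ e, Ω e) → ℝ) : ℝ :=
  avg fun R : E → Bool => eaQ (eaN (tr R ∩ s) v)

theorem ea_split (e : E) (H : (E → Bool) → ℝ) :
    avg H = avg fun R => (1 / 2) * (H (Function.update R e true) + H (Function.update R e false)) := by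
  have h1 := avg_mix (Ω := fun _ : E => Bool) {e} H
  rw [← h1]
  congr 1
  funext R
  have h2 : (fun y : E → Bool => H (mix {e} R y)) = fun y => H (Function.update R e (y e)) := by
    funext y
    congr 1
    funext e'
    unfold mix
    by_cases h : e' = e
    · subst h
      simp
    · simp [h]
  rw [h2]
  have h3 : ∀ g : Bool → ℝ, (avg fun y : E → Bool => g (y e)) = (1 / 2) * (g true + g false) := by
    intro g
    have h4 : (avg fun y : E → Bool => g (y e)) =
        avg fun y : E → Bool => (avg g) := by
      have h5 : (fun y : E → Bool => g (y e)) = fun y => g (y e) := rfl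
      have h6 := avg_mix (Ω := fun _ : E => Bool) (univ.erase e) fun y => g (y e)
      have h7 : ∀ x y : E → Bool, mix (Ω := fun _ : E => Bool) (univ.erase e) x y e = x e := by
        intro x y
        unfold mix
        simp
      -- the marginal of one coordinate
      have hc : ∀ b : Bool, (avg fun y : E → Bool => g (y e)) =
          avg fun y : E → Bool => g (xor b (y e)) := by
        intro b
        let ε : (E → Bool) ≃ (E → Bool) :=
          { toFun := fun y => Function.update y e (xor b (y e))
            invFun := fun y => Function.update y e (xor b (y e))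
            left_inv := fun y => by
              funext e'
              by_cases h : e' = e
              · subst h; simp
              · simp [h]
            right_inv := fun y => by
              funext e'
              by_cases h : e' = e
              · subst h; simp
              · simp [h] }
        rw [← avg_equiv ε fun y => g (y e)]
        congr 1
        funext y
        simp [ε]
      have h8 : (avg fun y : E → Bool => g (y e)) =
          (1 / 2) * ((avg fun y : E → Bool => g (xor false (y e))) +
            avg fun y : E → Bool => g (xor true (y e))) := by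
        rw [← hc false, ← hc true]
        ring
      rw [h8, ← avg_add, ← avg_mul_left]
      congr 1
      funext y
      unfold avg
      rw [Fintype.sum_bool, Fintype.card_bool]
      push_cast
      cases y e <;> simp <;> ring
    rw [h4, avg_const]
    unfold avg
    rw [Fintype.sum_bool, Fintype.card_bool]
    push_cast
    ring
  exact h3 fun b => H (Function.update R e b)

theorem ea_rec {s : Finset E} {e : E} (he : e ∉ s) (v : (∀ e, Ω e) → ℝ) :
    eaS (insert e s) v = (1 / 2) * eaS s v + (1 / 2) * eaS s (eaN {e} v) := by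
  unfold eaS
  rw [ea_split e, ← avg_mul_left, ← avg_mul_left, ← avg_add]
  have h0 : ∀ (R : E → Bool) (b : Bool), tr (Function.update R e b) ∩ s = tr R ∩ s := by
    intro R b
    ext e'
    unfold tr
    simp only [mem_inter, mem_filter, mem_univ, true_and]
    constructor
    · rintro ⟨h1, h2⟩
      have : e' ≠ e := fun h => he (h ▸ h2)
      rw [Function.update_of_ne this] at h1
      exact ⟨h1, h2⟩
    · rintro ⟨h1, h2⟩
      have : e' ≠ e := fun h => he (h ▸ h2)
      rw [Function.update_of_ne this]
      exact ⟨h1, h2⟩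
  congr 1
  funext R
  have h1 : tr (Function.update R e false) ∩ insert e s = tr R ∩ s := by
    rw [← h0 R false]
    ext e'
    unfold tr
    simp only [mem_inter, mem_filter, mem_univ, true_and, mem_insert]
    constructor
    · rintro ⟨h1, h2 | h2⟩
      · subst h2
        simp at h1
      · exact ⟨h1, h2⟩
    · rintro ⟨h1, h2⟩
      exact ⟨h1, Or.inr h2⟩
  have h2 : tr (Function.update R e true) ∩ insert e s = (tr R ∩ s) ∪ {e} := by
    rw [← h0 R true]
    ext e'
    unfold tr
    simp only [mem_inter, mem_filter, mem_univ, true_and, mem_insert, mem_union, mem_singleton]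
    constructor
    · rintro ⟨h1, h2 | h2⟩
      · exact Or.inr h2
      · exact Or.inl ⟨h1, h2⟩
    · rintro (⟨h1, h2⟩ | h2)
      · exact ⟨h1, Or.inr h2⟩
      · subst h2
        simp
  rw [h1, h2]
  have h3 : eaN ((tr R ∩ s) ∪ {e}) v = eaN (tr R ∩ s) (eaN {e} v) := by
    funext x
    exact (eaN_comp _ _ _ _).symm
  rw [h3]
  ring

theorem ea_orth {s : Finset E} {e : E} (v : (∀ e, Ω e) → ℝ) :
    eaS s v = eaS s (eaN {e} v) + eaS s (fun x => v x - eaN {e} v x) := by
  unfold eaS
  rw [← avg_add]
  congr 1
  funext R
  rw [ea_pyth {e} (eaN (tr R ∩ s) v)]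
  have h1 : eaN {e} (eaN (tr R ∩ s) v) = eaN (tr R ∩ s) (eaN {e} v) := by
    funext x
    rw [eaN_comp, eaN_comp, union_comm]
  have h2 : (fun x => eaN (tr R ∩ s) v x - eaN {e} (eaN (tr R ∩ s) v) x) =
      eaN (tr R ∩ s) fun x => v x - eaN {e} v x := by
    funext x
    rw [eaN_sub, h1]
  rw [h2, h1]

theorem ea_weak (s : Finset E) : ∀ v : (∀ e, Ω e) → ℝ,
    eaS s v ≤ (1 / 2) * eaQ v + (1 / 2) * eaQ (eaN s v) := by
  induction s using Finset.induction_on with
  | empty =>
    intro v
    unfold eaS
    simp only [inter_empty]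
    rw [avg_const]
    have h1 : eaN ∅ v = v := by
      funext x
      unfold eaN
      have : (fun y : ∀ e, Ω e => v (mix ∅ x y)) = fun _ => v x := by
        funext y
        congr 1
      rw [this, avg_const]
    rw [h1]
    linarith
  | insert e s he ih =>
    intro v
    have h1 := ea_rec he v
    have h2 := ea_orth (s := s) (e := e) v
    have h3 := ih (eaN {e} v)
    have h4 := ih fun x => v x - eaN {e} v x
    have h5 := ea_pyth {e} v
    have h6 := ea_le s fun x => v x - eaN {e} v x
    have h7 : eaN s (eaN {e} v) = eaN (insert e s) v := by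
      funext x
      rw [eaN_comp, union_comm]
      rfl
    rw [h7] at h3
    have h8 := eaQ_nonneg fun x => v x - eaN {e} v x
    linarith

theorem ea_strong (s : Finset E) : ∀ v : (∀ e, Ω e) → ℝ,
    eaS s v ≤ (1 / 4) * eaQ v +
      (1 / 4) * ∑ e ∈ s, eaQ (fun x => eaN (s.erase e) v x - eaN s v x) +
      (3 / 4) * eaQ (eaN s v) := by
  induction s using Finset.induction_on with
  | empty =>
    intro v
    unfold eaS
    simp only [inter_empty, sum_empty]
    rw [avg_const]
    have h1 : eaN ∅ v = v := by
      funext x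
      unfold eaN
      have : (fun y : ∀ e, Ω e => v (mix ∅ x y)) = fun _ => v x := by
        funext y
        congr 1
      rw [this, avg_const]
    rw [h1]
    linarith
  | insert e s he ih =>
    intro v
    have h1 := ea_rec he v
    have h2 := ea_orth (s := s) (e := e) v
    have h3 := ih (eaN {e} v)
    have h4 := ea_weak s fun x => v x - eaN {e} v x
    have h5 := ea_pyth {e} v
    have h7 : eaN s (eaN {e} v) = eaN (insert e s) v := by
      funext x
      rw [eaN_comp, union_comm]
      rfl
    have h9 : (∑ f ∈ s, eaQ (fun x => eaN (s.erase f) (eaN {e} v) x - eaN s (eaN {e} v) x)) =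
        ∑ f ∈ s, eaQ (fun x => eaN ((insert e s).erase f) v x - eaN (insert e s) v x) := by
      refine sum_congr rfl fun f hf => ?_
      congr 1
      funext x
      rw [h7, eaN_comp]
      congr 2
      ext e'
      simp only [mem_union, mem_erase, mem_singleton, mem_insert]
      constructor
      · rintro (⟨h1, h2⟩ | h1)
        · exact ⟨h1, Or.inr h2⟩
        · refine ⟨?_, Or.inl h1⟩
          rintro rfl
          exact he (h1 ▸ hf)
      · rintro ⟨h1, h2 | h2⟩
        · exact Or.inr h2
        · exact Or.inl ⟨h1, h2⟩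
    have h10 : eaQ (eaN s fun x => v x - eaN {e} v x) =
        eaQ (fun x => eaN ((insert e s).erase e) v x - eaN (insert e s) v x) := by
      congr 1
      funext x
      rw [eaN_sub, h7, erase_insert he]
    rw [h9, h7] at h3
    rw [h10] at h4
    rw [sum_insert he]
    linarith

/-- A function without parts of degree zero and one loses three quarters of its energy. -/
theorem ea_sh {v : (∀ e, Ω e) → ℝ} (h0 : avg v = 0) (h1 : ∀ e x, c1 e v x = 0) :
    (avg fun R : E → Bool => avg fun x : ∀ e, Ω e =>
      (avg fun y : ∀ e, Ω e => v (mix (tr R) x y)) ^ 2) ≤ (1 / 4) * avg fun x => (v x) ^ 2 := by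
  have h := ea_strong (univ : Finset E) v
  have hu : ∀ x, eaN univ v x = 0 := by
    intro x
    unfold eaN
    have : (fun y : ∀ e, Ω e => v (mix univ x y)) = v := by
      funext y
      congr 1
      funext e
      unfold mix
      simp
    rw [this, h0]
  have h2 : ∀ e x, eaN (univ.erase e) v x = 0 := by
    intro e x
    rw [← h1 e x]
    unfold eaN c1
    congr 1
    funext y
    congr 2
    ext e'
    simp
  have h3 : eaQ (eaN univ v) = 0 := by
    unfold eaQ
    simp only [hu]
    rw [zero_pow two_ne_zero, avg_const]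
  have h4 : ∑ e, eaQ (fun x => eaN (univ.erase e) v x - eaN univ v x) = 0 := by
    refine sum_eq_zero fun e _ => ?_
    unfold eaQ
    simp only [hu, h2, sub_self]
    rw [zero_pow two_ne_zero, avg_const]
  rw [h3, h4] at h
  have h5 : eaS univ v = avg fun R : E → Bool => avg fun x : ∀ e, Ω e =>
      (avg fun y : ∀ e, Ω e => v (mix (tr R) x y)) ^ 2 := by
    unfold eaS
    simp only [inter_univ]
    rfl
  rw [h5] at h
  unfold eaQ at h
  linarith

end Pool.Agent.MP_ca1109_lc.Ov
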