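import Pool.Agent.MP_ca1109_lc.Ot.EA
import Pool.Agent.MP_ca1109_lc.Ot.OR
import Pool.Agent.MP_ca1109_lc.Ov.ME

/-!
# Row EB: the energy of the second differences
-/

namespace Pool.Agent.MP_ca1109_lc.Ov

open Finset Pool.Agent.H66 Pool.Agent.MP_ca1109_lc.Mpg Pool.Agent.MP_ca1109_lc.Agp
  Pool.Agent.MP_ca1109_lc.Xp

section EB

variable {E : Type} [Fintype E] [DecidableEq E] {Ω : E → Type} [∀ e, Fintype (Ω e)]

theorem ebx_comm {A B : Type*} [Fintype A] [Fintype B] (f : A → B → ℝ) :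
    (avg fun x => avg fun y => f x y) = avg fun y => avg fun x => f x y := by
  unfold avg
  rw [← Finset.sum_div, ← Finset.sum_div, Finset.sum_comm, div_div, div_div, mul_comm]

theorem ebx_add {A : Type*} [Fintype A] (f g : A → ℝ) :
    (avg fun x => f x + g x) = avg f + avg g := by
  unfold avg
  rw [Finset.sum_add_distrib, add_div]

theorem ebx_mul {A : Type*} [Fintype A] (c : ℝ) (f : A → ℝ) :
    (avg fun x => c * f x) = c * avg f := by
  unfold avg
  rw [← Finset.mul_sum, mul_div_assoc]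

/-- The squared norm of the average over the coordinates in `A`. -/
noncomputable def ebN (A : Finset E) (w : (∀ e, Ω e) → ℝ) : ℝ :=
  avg fun x : ∀ e, Ω e => (avg fun y : ∀ e, Ω e => w (mix A x y)) ^ 2

omit [∀ e, Fintype (Ω e)] in
theorem ebx_mix_compl (A : Finset E) (x y : ∀ e, Ω e) : mix Aᶜ x y = mix A y x := by
  funext e
  by_cases h : e ∈ A
  · rw [me_mix_not_mem (by simp [h]), me_mix_mem h]
  · rw [me_mix_mem (by simp [h]), me_mix_not_mem h]

variable [∀ e, Nonempty (Ω e)]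

theorem ebx_cross (A : Finset E) (w : (∀ e, Ω e) → ℝ) :
    (avg fun x : ∀ e, Ω e => avg fun y : ∀ e, Ω e => w x * w (mix A x y)) = ebN A w := by
  unfold ebN
  have h1 : ∀ x : ∀ e, Ω e, (avg fun y : ∀ e, Ω e => w x * w (mix A x y)) =
      w x * avg fun y : ∀ e, Ω e => w (mix A x y) := fun x => ebx_mul _ _
  simp only [h1]
  rw [← avg_mix A (fun x : ∀ e, Ω e => w x * avg fun y : ∀ e, Ω e => w (mix A x y))]
  congr 1
  funext x
  have h2 : ∀ z y : ∀ e, Ω e, mix A (mix A x z) y = mix A x y := by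
    intro z y
    funext e
    by_cases h : e ∈ A
    · rw [me_mix_mem h, me_mix_mem h]
    · rw [me_mix_not_mem h, me_mix_not_mem h, me_mix_not_mem h]
  simp only [h2]
  have h3 : (fun z : ∀ e, Ω e => w (mix A x z) * avg fun y : ∀ e, Ω e => w (mix A x y)) =
      fun z : ∀ e, Ω e => (avg fun y : ∀ e, Ω e => w (mix A x y)) * w (mix A x z) := by
    funext z
    ring
  rw [h3, ebx_mul, sq]

theorem ebx_dd (A : Finset E) (w : (∀ e, Ω e) → ℝ) :
    (avg fun x : ∀ e, Ω e => avg fun y : ∀ e, Ω e => (dd A w x y) ^ 2) =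
      4 * (avg fun x => (w x) ^ 2) + 4 * (avg w) ^ 2 - 4 * ebN A w - 4 * ebN Aᶜ w := by
  have h0 : ∀ x y : ∀ e, Ω e, (dd A w x y) ^ 2 =
      w x ^ 2 + w (mix A x y) ^ 2 + w (mix Aᶜ x y) ^ 2 + w y ^ 2 + (-2) * (w x * w (mix A x y)) +
      (-2) * (w x * w (mix Aᶜ x y)) + 2 * (w x * w y) + 2 * (w (mix A x y) * w (mix A y x)) +
      (-2) * (w y * w (mix Aᶜ y x)) + (-2) * (w y * w (mix A y x)) := by
    intro x y
    unfold dd
    rw [ebx_mix_compl A x y, ebx_mix_compl A y x]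
    ring
  have e1 : (avg fun x : ∀ e, Ω e => avg fun _ : ∀ e, Ω e => w x ^ 2) = avg fun x => w x ^ 2 := by
    congr 1
    funext x
    exact avg_const _
  have e2 : (avg fun _ : ∀ e, Ω e => avg fun y : ∀ e, Ω e => w y ^ 2) = avg fun x => w x ^ 2 :=
    avg_const _
  have e3 := avg_mix A fun x => w x ^ 2
  have e4 := avg_mix Aᶜ fun x => w x ^ 2
  have e5 : (avg fun x : ∀ e, Ω e => avg fun y : ∀ e, Ω e => (-2) * (w x * w (mix A x y))) =
      (-2) * ebN A w := by
    rw [← ebx_cross A w, ← ebx_mul]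
    simp only [ebx_mul]
  have e6 : (avg fun x : ∀ e, Ω e => avg fun y : ∀ e, Ω e => (-2) * (w x * w (mix Aᶜ x y))) =
      (-2) * ebN Aᶜ w := by
    rw [← ebx_cross Aᶜ w, ← ebx_mul]
    simp only [ebx_mul]
  have e7' : (avg fun x : ∀ e, Ω e => avg fun y : ∀ e, Ω e => w x * w y) = (avg w) ^ 2 := by
    have h1 : (fun x : ∀ e, Ω e => avg fun y : ∀ e, Ω e => w x * w y) = fun x => avg w * w x := by
      funext x
      rw [ebx_mul, mul_comm]
    rw [h1, ebx_mul, sq]
  have e7 : (avg fun x : ∀ e, Ω e => avg fun y : ∀ e, Ω e => 2 * (w x * w y)) =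
      2 * (avg w) ^ 2 := by
    rw [← e7', ← ebx_mul]
    simp only [ebx_mul]
  have e8 : (avg fun x : ∀ e, Ω e => avg fun y : ∀ e, Ω e => 2 * (w (mix A x y) * w (mix A y x)))
      = 2 * (avg w) ^ 2 := by
    rw [avg_swap A (fun x y => 2 * (w x * w y)), e7]
  have e9 : (avg fun x : ∀ e, Ω e => avg fun y : ∀ e, Ω e => (-2) * (w y * w (mix Aᶜ y x))) =
      (-2) * ebN Aᶜ w := by
    rw [ebx_comm]
    exact e6
  have e10 : (avg fun x : ∀ e, Ω e => avg fun y : ∀ e, Ω e => (-2) * (w y * w (mix A y x))) =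
      (-2) * ebN A w := by
    rw [ebx_comm]
    exact e5
  simp only [h0]
  have hsum : ∀ f1 f2 f3 f4 f5 f6 f7 f8 f9 f10 : (∀ e, Ω e) → (∀ e, Ω e) → ℝ,
      (avg fun x : ∀ e, Ω e => avg fun y : ∀ e, Ω e =>
        f1 x y + f2 x y + f3 x y + f4 x y + f5 x y + f6 x y + f7 x y + f8 x y + f9 x y + f10 x y) =
      (avg fun x => avg fun y => f1 x y) + (avg fun x => avg fun y => f2 x y) +
      (avg fun x => avg fun y => f3 x y) + (avg fun x => avg fun y => f4 x y) +
      (avg fun x => avg fun y => f5 x y) + (avg fun x => avg fun y => f6 x y) +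
      (avg fun x => avg fun y => f7 x y) + (avg fun x => avg fun y => f8 x y) +
      (avg fun x => avg fun y => f9 x y) + (avg fun x => avg fun y => f10 x y) := by
    intro f1 f2 f3 f4 f5 f6 f7 f8 f9 f10
    simp only [ebx_add]
  rw [hsum, e1, e2, e3, e4, e5, e6, e7, e8, e9, e10]
  ring

omit [∀ e, Nonempty (Ω e)] in
theorem ebx_compl (w : (∀ e, Ω e) → ℝ) :
    (avg fun R : E → Bool => ebN (tr R)ᶜ w) = avg fun R : E → Bool => ebN (tr R) w := by
  unfold avg
  congr 1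
  let σ : (E → Bool) ≃ (E → Bool) :=
    { toFun := fun R e => !R e
      invFun := fun R e => !R e
      left_inv := fun R => by
        funext e
        simp
      right_inv := fun R => by
        funext e
        simp }
  have h1 : ∀ R : E → Bool, tr (σ R) = (tr R)ᶜ := by
    intro R
    ext e
    simp [tr, σ]
  rw [← Equiv.sum_comp σ fun R => ebN (tr R) w]
  apply Finset.sum_congr rfl
  intro R _
  rw [h1]

theorem eb_dd (v : (∀ e, Ω e) → ℝ) :
    (avg fun R : E → Bool => avg fun x : ∀ e, Ω e => avg fun y : ∀ e, Ω e =>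
      (dd (tr R) v x y) ^ 2) =
      4 * (avg fun x => (v x) ^ 2) + 4 * (avg v) ^ 2 -
        8 * avg fun R : E → Bool => avg fun x : ∀ e, Ω e =>
          (avg fun y : ∀ e, Ω e => v (mix (tr R) x y)) ^ 2 := by
  have h0 : ∀ R : E → Bool, (avg fun x : ∀ e, Ω e => avg fun y : ∀ e, Ω e =>
      (dd (tr R) v x y) ^ 2) = (4 * (avg fun x => (v x) ^ 2) + 4 * (avg v) ^ 2) +
        ((-4) * ebN (tr R) v + (-4) * ebN (tr R)ᶜ v) := by
    intro R
    rw [ebx_dd]
    ring
  simp only [h0]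
  have h1 : (avg fun R : E → Bool => (4 * (avg fun x => (v x) ^ 2) + 4 * (avg v) ^ 2) +
        ((-4) * ebN (tr R) v + (-4) * ebN (tr R)ᶜ v)) =
      (4 * (avg fun x => (v x) ^ 2) + 4 * (avg v) ^ 2) +
        ((-4) * (avg fun R : E → Bool => ebN (tr R) v) +
          (-4) * (avg fun R : E → Bool => ebN (tr R)ᶜ v)) := by
    have e1 := ebx_add (A := E → Bool) (fun _ => 4 * (avg fun x => (v x) ^ 2) + 4 * (avg v) ^ 2)
      (fun R => (-4) * ebN (tr R) v + (-4) * ebN (tr R)ᶜ v)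
    have e2 := ebx_add (A := E → Bool) (fun R => (-4) * ebN (tr R) v)
      (fun R => (-4) * ebN (tr R)ᶜ v)
    have e3 := ebx_mul (A := E → Bool) (-4) (fun R => ebN (tr R) v)
    have e4 := ebx_mul (A := E → Bool) (-4) (fun R => ebN (tr R)ᶜ v)
    have e5 : (avg fun _ : E → Bool => 4 * (avg fun x => (v x) ^ 2) + 4 * (avg v) ^ 2) =
      4 * (avg fun x => (v x) ^ 2) + 4 * (avg v) ^ 2 := avg_const _
    rw [e1, e2, e3, e4, e5]
  rw [h1, ebx_compl]
  show _ = 4 * (avg fun x => (v x) ^ 2) + 4 * (avg v) ^ 2 -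
        8 * avg fun R : E → Bool => ebN (tr R) v
  ring

theorem eb_main {B : Finset E} {w : (∀ e, Ω e) → ℝ} (hw : Dep B w) :
    2 * (avg fun x => (hi B w x) ^ 2) ≤
      avg fun R : E → Bool => avg fun x : ∀ e, Ω e => avg fun y : ∀ e, Ω e =>
        (dd (tr R) w x y) ^ 2 := by
  have h1 := eb_dd (hi B w)
  have h2 := ea_sh (hi_avg hw) (hi_c1 hw)
  simp only [hi_dd] at h1
  rw [h1, hi_avg hw]
  nlinarith

end EB

end Pool.Agent.MP_ca1109_lc.Ov
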