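import Pool.Agent.MP_ca1109_lc.Ov.GT

/-!
# Boolean functions of gates and thresholds over overlapping blocks of bits: the class
-/

namespace Pool.Agent.MP_ca1109_lc.Ov

/-- A gate over the blocks `I j`: a gate `OGate`, or a threshold gate, which tests whether a sum of
integer functions of the blocks, with values in `[-B, B]`, is at least `θ`. -/
def TGate (B : ℕ) {n q : ℕ} (I : Fin q → Finset (Fin n)) (g : (Fin n → Bool) → Bool) : Prop :=
  OGate B I g ∨ ∃ (w : Fin q → (Fin n → Bool) → ℤ) (θ : ℤ), OnBlocks I w ∧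
    (∀ j x, |w j x| ≤ B) ∧ ∀ x, g x = true ↔ θ ≤ ∑ j, w j x

/-- `T` is a Boolean function of `k` gates over the same blocks `I j`, which have at most `c log n`
bits and may overlap. -/
def TTest (c r B k n : ℕ) (T : (Fin n → Bool) → Bool) : Prop :=
  ∃ (q : ℕ) (I : Fin q → Finset (Fin n)) (g : Fin k → (Fin n → Bool) → Bool)
    (F : (Fin k → Bool) → Bool),
    (∀ j, 2 ^ (I j).card ≤ n ^ c) ∧ Over r I ∧ (∀ i, TGate B I (g i)) ∧
    ∀ x, T x = F fun i => g i x

end Pool.Agent.MP_ca1109_lc.Ov
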