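import Pool.Agent.MP_ca1109_lc.Ot.TG
import Pool.Agent.MP_ca1109_lc.Ot.Test
import Pool.Agent.MP_ca1109_lc.Ov.FG
import Pool.Agent.MP_ca1109_lc.Pnh.FI

/-!
# Boolean functions of gates and thresholds over overlapping blocks: the theorem
-/

namespace Pool.Agent.MP_ca1109_lc.Ov

open Finset Pool.Agent.H66 Pool.Agent.MP_ca1109_lc.Mpg Pool.Agent.MP_ca1109_lc.Agp
  Pool.Agent.MP_ca1109_lc.Xp
open Pool.Agent.MP_ca1109_lc.Dnf (one one_le one_nonneg)

theorem ft_fool_mono {n q : ℕ} {I : Fin q → Finset (Fin n)} {ε ε' : ℝ} (h : ε ≤ ε') {Θ : Type}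
    [Fintype Θ] {Y : Θ → Fin n → Bool} (hY : Fool ε I Y) : Fool ε' I Y :=
  fun f h1 h2 => (hY f h1 h2).trans h

theorem ft_fool_id {n q : ℕ} {I : Fin q → Finset (Fin n)} {ε : ℝ} (h : 0 ≤ ε) :
    Fool ε I (fun x : Fin n → Bool => x) := by
  intro f _ _
  rw [sub_self, norm_zero]
  exact h

/-- Combinations of products are fooled. -/
theorem ft_err {n q : ℕ} {I : Fin q → Finset (Fin n)} {C ε : ℝ} {Φ : (Fin n → Bool) → ℂ}
    (h : PC I C Φ) (hε : 0 ≤ ε) {Θ : Type} [Fintype Θ] {Y : Θ → Fin n → Bool}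
    (hY : Fool ε I Y) : ‖(av fun ω => Φ (Y ω)) - av Φ‖ ≤ C * ε := by
  obtain ⟨ι, iι, c, t, h1, h2, h3, h4⟩ := h
  have e : ∀ {A : Type} [Fintype A] (f : ι → A → ℂ),
      av (fun a => ∑ i, c i * f i a) = ∑ i, c i * av (f i) := by
    intro A _ f
    unfold av
    rw [Finset.sum_comm, Finset.sum_div]
    refine Finset.sum_congr rfl fun i _ => ?_
    rw [← Finset.mul_sum, mul_div_assoc]
  have e1 : (av fun ω => Φ (Y ω)) = ∑ i, c i * av fun ω => ∏ j, t i j (Y ω) := by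
    rw [← e]
    congr 1
    funext ω
    exact h4 _
  have e2 : av Φ = ∑ i, c i * av fun x => ∏ j, t i j x := by
    rw [← e]
    congr 1
    funext x
    exact h4 _
  rw [e1, e2, ← sum_sub_distrib]
  refine (norm_sum_le _ _).trans ?_
  refine (sum_le_sum fun i _ => ?_).trans ((sum_mul _ _ _).symm.le.trans
    (mul_le_mul_of_nonneg_right h1 hε))
  rw [← mul_sub, norm_mul]
  exact mul_le_mul_of_nonneg_left (hY (t i) (h2 i) (h3 i)) (norm_nonneg _)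

/-- Gates are approximable. -/
theorem ft_gate (r B : ℕ) {ε₁ : ℝ} (h1 : 0 < ε₁) : ∃ C ε₀ : ℝ, 0 ≤ C ∧ 0 < ε₀ ∧ ∀ {n q : ℕ}
    {I : Fin q → Finset (Fin n)}, Over r I → ∀ {g : (Fin n → Bool) → Bool}, TGate B I g →
    ∃ G : (Fin n → Bool) → ℂ, (∀ x, ‖G x‖ ≤ 2) ∧ PC I C G ∧
      ∀ {Θ : Type} [Fintype Θ] [Nonempty Θ] (Y : Θ → Fin n → Bool), Fool ε₀ I Y →
        (avg fun ω => ‖((ind (g (Y ω)) : ℝ) : ℂ) - G (Y ω)‖) ≤ ε₁ := by
  obtain ⟨C, hC, hg⟩ := fg_gate B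
  obtain ⟨C', ε₀, hC', hε₀, ht⟩ := tg_gate r B h1
  refine ⟨max C C', ε₀, le_max_of_le_left hC, hε₀, ?_⟩
  intro n q I hI g hgt
  rcases hgt with hgo | ⟨w, θ, hw, hwB, hgx⟩
  · refine ⟨fun x => ((ind (g x) : ℝ) : ℂ), fun x => ?_, (hg hgo).mono (le_max_left _ _), ?_⟩
    · rw [Complex.norm_real, Real.norm_of_nonneg (ind_nonneg _)]
      linarith [ind_le_one (g x)]
    · intro Θ _ _ Y _
      have e : (fun ω => ‖((ind (g (Y ω)) : ℝ) : ℂ) - ((ind (g (Y ω)) : ℝ) : ℂ)‖) =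
          fun _ => 0 := by
        funext ω
        rw [sub_self, norm_zero]
      rw [e, avg_const]
      exact h1.le
  · obtain ⟨G, h2, hG, happ⟩ := ht hI hw hwB θ
    have hG' : PC I C' G := hG
    refine ⟨G, h2, hG'.mono (le_max_right _ _), ?_⟩
    intro Θ _ _ Y hY
    have e : (fun ω => ‖((ind (g (Y ω)) : ℝ) : ℂ) - G (Y ω)‖) =
        fun ω => ‖((one (θ ≤ ∑ j, w j (Y ω)) : ℝ) : ℂ) - G (Y ω)‖ := by
      funext ω
      rw [fg_ind _ _ (hgx (Y ω))]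
    rw [e]
    exact happ Y hY

/-- The theorem. -/
theorem final_thr (c r B k : ℕ) {ε : ℝ} (hε : 0 < ε) : LogGen (TTest c r B k) ε := by
  classical
  obtain ⟨C, ε₀, hC, hε₀, hg⟩ := ft_gate r B
    (ε₁ := ε / (4 * (2 ^ k * (3 ^ k * ((k : ℝ) + 1))))) (by positivity)
  obtain ⟨ε₂, hε₂⟩ : ∃ ε₂ : ℝ, ε₂ = min ε₀ (ε / (2 * (2 ^ k * (1 + C) ^ k))) := ⟨_, rfl⟩
  have hε₂0 : 0 < ε₂ := by rw [hε₂]; exact lt_min hε₀ (by positivity)
  have hε₂1 : ε₂ ≤ ε₀ := by rw [hε₂]; exact min_le_left _ _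
  have hε₂2 : ε₂ ≤ ε / (2 * (2 ^ k * (1 + C) ^ k)) := by rw [hε₂]; exact min_le_right _ _
  obtain ⟨E, G, hNG, n₀, H⟩ := main_disc r c hε₂0
  refine fg_eventually (𝒯 := fun n T => n₀ ≤ n ∧ TTest c r B k n T)
    (logGen_of hNG fun n T hT => ?_) n₀ fun n hn T hT => ⟨hn, hT⟩
  obtain ⟨hn0, q, I, g, F, hcard, hov, hgate, hT⟩ := hT
  have hne : Nonempty (Fin (2 ^ E n)) := ⟨⟨0, by positivity⟩⟩
  have hX : Fool ε₂ I (fun p : Fin (2 ^ E n) => out G n p) := by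
    intro f h1 h2
    have := H n hn0 q I f hov.1 hov.2 hcard h1 h2
    rwa [← av_fin (2 ^ E n) (fun p => ∏ j, f j (out G n p))] at this
  choose Gj h01 hPC happ using fun j => hg hov (hgate j)
  have hc1 := Pnh.fi_close F g Gj h01 (fun p : Fin (2 ^ E n) => out G n p)
    fun i => happ i _ (ft_fool_mono hε₂1 hX)
  have hc2 := Pnh.fi_close F g Gj h01 (fun x : Fin n → Bool => x)
    fun i => happ i _ (ft_fool_id hε₀.le)
  have hpc : PC I (2 ^ k * (1 + C) ^ k) (fun x => Pnh.fi_ext F fun i => Gj i x) :=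
    fg_ext_pc F Gj hPC hC
  have hc3 := ft_err hpc hε₂0.le hX
  have key : |(avg fun p : Fin (2 ^ E n) => ind (F fun i => g i (out G n p))) -
      avg fun x : Fin n → Bool => ind (F fun i => g i x)| ≤
      2 * (2 ^ k * (3 ^ k * (k * (ε / (4 * (2 ^ k * (3 ^ k * ((k : ℝ) + 1)))))))) +
        2 ^ k * (1 + C) ^ k * ε₂ := by
    rw [← Real.norm_eq_abs, ← Complex.norm_real, Complex.ofReal_sub, Pnh.fi_ofReal_avg,
      Pnh.fi_ofReal_avg]
    have e : (av fun p : Fin (2 ^ E n) => ((ind (F fun i => g i (out G n p)) : ℝ) : ℂ)) -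
        (av fun x : Fin n → Bool => ((ind (F fun i => g i x) : ℝ) : ℂ)) =
        ((av fun p : Fin (2 ^ E n) => ((ind (F fun i => g i (out G n p)) : ℝ) : ℂ)) -
          av fun p : Fin (2 ^ E n) => Pnh.fi_ext F fun i => Gj i (out G n p)) +
        (((av fun p : Fin (2 ^ E n) => Pnh.fi_ext F fun i => Gj i (out G n p)) -
          av fun x => Pnh.fi_ext F fun i => Gj i x) -
        ((av fun x : Fin n → Bool => ((ind (F fun i => g i x) : ℝ) : ℂ)) -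
          av fun x => Pnh.fi_ext F fun i => Gj i x)) := by
      ring
    rw [e]
    refine (norm_add_le _ _).trans ?_
    refine (add_le_add hc1 ((norm_sub_le _ _).trans (add_le_add hc3 hc2))).trans_eq ?_
    ring
  have e1 : nr (2 ^ E n) (fun p => ind (T (out G n p))) =
      avg fun p : Fin (2 ^ E n) => ind (F fun j => g j (out G n p)) := by
    rw [← Pnh.fi_avg_fin]
    congr 1
    funext p
    rw [hT]
  have e2 : prob T = avg fun x : Fin n → Bool => ind (F fun j => g j x) := by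
    rw [prob_eq_avg]
    congr 1
    funext x
    rw [hT]
  rw [e1, e2]
  refine key.trans ?_
  have e3 : 2 * (2 ^ k * (3 ^ k * ((k : ℝ) * (ε / (4 * (2 ^ k * (3 ^ k * ((k : ℝ) + 1)))))))) ≤
      ε / 2 := by
    rw [show 2 * (2 ^ k * (3 ^ k * ((k : ℝ) * (ε / (4 * (2 ^ k * (3 ^ k * ((k : ℝ) + 1)))))))) =
      ε / 2 * ((k : ℝ) / ((k : ℝ) + 1)) by field_simp; ring]
    have : (k : ℝ) / ((k : ℝ) + 1) ≤ 1 := by
      rw [div_le_one (by positivity)]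
      linarith
    nlinarith
  have e4 : 2 ^ k * (1 + C) ^ k * ε₂ ≤ ε / 2 := by
    calc 2 ^ k * (1 + C) ^ k * ε₂ ≤ 2 ^ k * (1 + C) ^ k * (ε / (2 * (2 ^ k * (1 + C) ^ k))) :=
          mul_le_mul_of_nonneg_left hε₂2 (by positivity)
      _ = ε / 2 := by field_simp
  linarith

end Pool.Agent.MP_ca1109_lc.Ov
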