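import Pool.Agent.MP_ca1109_lc.Ot.CB
import Pool.Agent.MP_ca1109_lc.Ov.FG
import Pool.Agent.MP_ca1109_lc.Ph.CN
import Pool.Agent.MP_ca1109_lc.Xh.RA

/-!
# Thresholds over overlapping blocks are close to combinations of few products
-/

namespace Pool.Agent.MP_ca1109_lc.Ov

open Finset Pool.Agent.H66 Pool.Agent.MP_ca1109_lc.Mpg Pool.Agent.MP_ca1109_lc.Agp
  Pool.Agent.MP_ca1109_lc.Xp Pool.Agent.MP_ca1109_lc.Pt
open Pool.Agent.MP_ca1109_lc.Dnf (one one_le one_nonneg one_true one_false)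
open Pool.Agent.MP_ca1109_lc.Ph (be)

theorem tg_norm_be (t S : ℝ) : ‖be t S‖ = 1 := by
  unfold be
  rw [Complex.norm_exp_ofReal_mul_I]

theorem tg_norm_one (p : Prop) : ‖((one p : ℝ) : ℂ)‖ ≤ 1 := by
  rw [Complex.norm_real, Real.norm_eq_abs, abs_of_nonneg (one_nonneg _)]
  exact one_le _

theorem tg_be_sum {n q : ℕ} (t : ℝ) (w : Fin q → (Fin n → Bool) → ℝ) (x : Fin n → Bool) :
    be t (∑ j, w j x) = ∏ j, be t (w j x) := by
  unfold be
  rw [← Complex.exp_sum]
  congr 1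
  push_cast
  rw [Finset.mul_sum, Finset.sum_mul]

/-- Large variance: the ramp. -/
theorem tg_big (K : ℝ) {ε₁ : ℝ} (h1 : 0 < ε₁) : ∃ C ε₀ : ℝ, 0 ≤ C ∧ 0 < ε₀ ∧
    ∀ {n q : ℕ} {I : Fin q → Finset (Fin n)} {w : Fin q → (Fin n → Bool) → ℝ},
    (∀ j, Dep (I j) (w j)) → ∀ a D θ : ℝ, 0 < D →
    (avg fun x => ((∑ j, w j x) - a) ^ 2) ≤ K * D ^ 2 →
    ∃ G : (Fin n → Bool) → ℂ, (∀ x, ‖G x‖ ≤ 2) ∧ PC I C G ∧
      ∀ {Ω : Type} [Fintype Ω] [Nonempty Ω] (Y : Ω → Fin n → Bool),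
        (∀ t : ℝ, ‖(av fun ω => be t (∑ j, w j (Y ω))) - av fun x => be t (∑ j, w j x)‖ ≤ ε₀) →
        (avg fun ω => one (|(∑ j, w j (Y ω)) - θ| ≤ D)) ≤ ε₁ / 2 →
        (avg fun ω => ‖((one (θ ≤ ∑ j, w j (Y ω)) : ℝ) : ℂ) - G (Y ω)‖) ≤ ε₁ := by
  classical
  obtain ⟨R, hR0, hconc⟩ := Ph.cn_gen K (show 0 < ε₁ / 24 by positivity)
  set ε₂ : ℝ := min (ε₁ / 4) 1 with hε₂
  have hε₂0 : 0 < ε₂ := by positivity
  have hε₂1 : ε₂ ≤ 1 := min_le_right _ _
  have hε₂2 : ε₂ ≤ ε₁ / 4 := min_le_left _ _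
  obtain ⟨N', P, φ, b, hP, hb1, hb2⟩ := Xh.ramp R hR0 hε₂0
  refine ⟨1 + ∑ j, ‖φ j‖, ε₁ / 96, by positivity, by positivity,
    fun {n q I w} hw a D θ hD hvar => ?_⟩
  set S : (Fin n → Bool) → ℝ := fun x => ∑ j, w j x with hS
  set c : ℝ := (a - θ) / D + 1 with hc
  have hcv : ∀ x, c + (S x - a) / D = (S x - θ) / D + 1 := by
    intro x
    rw [hc]
    field_simp
    ring
  -- the error, given the properties of `G`
  have herr : ∀ G : (Fin n → Bool) → ℂ, (∀ x, ‖G x‖ ≤ 2) →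
      (∀ x, |(S x - a) / D| ≤ R → ‖((max 0 (min 1 (c + (S x - a) / D)) : ℝ) : ℂ) - G x‖ ≤ ε₂) →
      ∀ {Ω : Type} [Fintype Ω] [Nonempty Ω] (Y : Ω → Fin n → Bool),
        (∀ t : ℝ, ‖(av fun ω => be t (S (Y ω))) - av fun x => be t (S x)‖ ≤ ε₁ / 96) →
        (avg fun ω => one (|S (Y ω) - θ| ≤ D)) ≤ ε₁ / 2 →
        (avg fun ω => ‖((one (θ ≤ S (Y ω)) : ℝ) : ℂ) - G (Y ω)‖) ≤ ε₁ := by
    intro G hG2 hG Ω _ _ Y hY hac
    have e2 := hconc n S a D hD hvar Y (ε₁ / 96) hY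
    have hpt : ∀ x : Fin n → Bool, ‖((one (θ ≤ S x) : ℝ) : ℂ) - G x‖ ≤
        one (|S x - θ| ≤ D) + 3 * one (R * D ≤ |S x - a|) + ε₂ := by
      intro x
      set u : ℝ := max 0 (min 1 (c + (S x - a) / D)) with hu
      have hu0 : 0 ≤ u := le_max_left _ _
      have hu1 : u ≤ 1 := max_le zero_le_one (min_le_left _ _)
      have hI1 : |one (θ ≤ S x) - u| ≤ one (|S x - θ| ≤ D) := by
        by_cases h2 : |S x - θ| ≤ D
        · rw [one_true h2, abs_le]
          have h3 := one_nonneg (θ ≤ S x)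
          have h4 := one_le (θ ≤ S x)
          constructor <;> linarith
        · rw [one_false h2]
          by_cases h3 : θ ≤ S x
          · have h4 : 1 ≤ c + (S x - a) / D := by
              rw [hcv]
              have : 0 ≤ (S x - θ) / D := div_nonneg (by linarith) hD.le
              linarith
            rw [one_true h3, hu, min_eq_left h4, max_eq_right zero_le_one, sub_self, abs_zero]
          · have h4 : c + (S x - a) / D ≤ 0 := by
              rw [hcv]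
              rw [abs_of_neg (by linarith [not_le.1 h3])] at h2
              have : (S x - θ) / D ≤ -1 := by
                rw [div_le_iff₀ hD]
                linarith [not_le.1 h2]
              linarith
            rw [one_false h3, hu, min_eq_right (h4.trans zero_le_one), max_eq_left h4,
              sub_self, abs_zero]
      have hf1 : ‖((u : ℝ) : ℂ) - G x‖ ≤ 3 * one (R * D ≤ |S x - a|) + ε₂ := by
        by_cases h2 : R * D ≤ |S x - a|
        · rw [one_true h2]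
          have h3 := norm_sub_le ((u : ℝ) : ℂ) (G x)
          rw [Complex.norm_real, Real.norm_eq_abs, abs_of_nonneg hu0] at h3
          linarith [hG2 x]
        · rw [one_false h2, mul_zero, zero_add]
          refine hG x ?_
          rw [abs_div, abs_of_pos hD, div_le_iff₀ hD]
          exact (not_le.1 h2).le
      have h5 : ((one (θ ≤ S x) : ℝ) : ℂ) - G x =
          ((one (θ ≤ S x) - u : ℝ) : ℂ) + (((u : ℝ) : ℂ) - G x) := by
        push_cast
        ring
      rw [h5]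
      refine (norm_add_le _ _).trans ?_
      rw [Complex.norm_real, Real.norm_eq_abs]
      linarith
    have h6 := avg_mono (f := fun ω => ‖((one (θ ≤ S (Y ω)) : ℝ) : ℂ) - G (Y ω)‖)
      (g := fun ω => one (|S (Y ω) - θ| ≤ D) +
        3 * one (R * D ≤ |S (Y ω) - a|) + ε₂) fun ω => hpt (Y ω)
    rw [avg_add, avg_add, avg_mul_left, avg_const] at h6
    linarith
  by_cases hcR : |c| ≤ R + 1
  · -- the trigonometric polynomial
    set G : (Fin n → Bool) → ℂ := fun x =>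
      ∑ j, φ j * be (2 * Real.pi * b j / P) (c - a / D) *
        ∏ i, be (2 * Real.pi * b j / P / D) (w i x) with hG
    have hGx : ∀ x, G x = ∑ j, φ j *
        Complex.exp (Complex.I * (2 * Real.pi * b j * (c + (S x - a) / D : ℝ) / P)) := by
      intro x
      simp only [hG]
      refine sum_congr rfl fun j _ => ?_
      rw [← tg_be_sum]
      unfold be
      rw [mul_assoc, ← Complex.exp_add]
      congr 2
      simp only [hS]
      push_cast
      field_simp
      ring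
    refine ⟨G, fun x => ?_, ?_, ?_⟩
    · rw [hGx x]
      have h2 := hb1 ((S x - a) / D) c hcR
      push_cast at h2 ⊢
      linarith
    · refine ⟨Fin N', inferInstance, fun j => φ j * be (2 * Real.pi * b j / P) (c - a / D),
        fun j i x => be (2 * Real.pi * b j / P / D) (w i x), ?_, fun j i x y hxy => ?_,
        fun j i x => (tg_norm_be _ _).le, fun x => rfl⟩
      · have h3 : ∑ j, ‖φ j * be (2 * Real.pi * b j / P) (c - a / D)‖ = ∑ j, ‖φ j‖ :=
          sum_congr rfl fun j _ => by rw [norm_mul, tg_norm_be, mul_one]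
        rw [h3]
        linarith
      · show be _ (w i x) = be _ (w i y)
        rw [hw i x y hxy]
    · refine herr G (fun x => ?_) (fun x hx => ?_)
      · rw [hGx x]
        have h2 := hb1 ((S x - a) / D) c hcR
        push_cast at h2 ⊢
        linarith
      · rw [hGx x, norm_sub_rev]
        have h3 := hb2 ((S x - a) / D) c hx hcR
        push_cast at h3 ⊢
        exact h3
  · -- a constant
    set g : ℂ := if R + 1 < c then 1 else 0 with hg
    have hg1 : ‖g‖ ≤ 1 := by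
      rw [hg]
      split_ifs
      · rw [norm_one]
      · rw [norm_zero]; exact zero_le_one
    have hφ : (0 : ℝ) ≤ ∑ j, ‖φ j‖ := sum_nonneg fun _ _ => norm_nonneg _
    refine ⟨fun _ => g, fun x => by linarith, (PC.const g).mono (by linarith), ?_⟩
    refine herr (fun _ => g) (fun x => by linarith) (fun x hx => ?_)
    have hx' := abs_le.1 hx
    rw [hg]
    split_ifs with h3
    · have h4 : 1 ≤ c + (S x - a) / D := by linarith
      rw [min_eq_left h4, max_eq_right zero_le_one, Complex.ofReal_one, sub_self, norm_zero]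
      exact hε₂0.le
    · have h4 : c + (S x - a) / D ≤ 0 := by
        rw [abs_le, not_and_or] at hcR
        rcases hcR with h5 | h5
        · linarith [not_le.1 h5]
        · exact absurd (not_le.1 h5) h3
      rw [min_eq_right (h4.trans zero_le_one), max_eq_left h4, Complex.ofReal_zero,
        sub_self, norm_zero]
      exact hε₂0.le

/-- Small variance: few points. -/
theorem tg_small (L : ℝ) {ε₁ : ℝ} (h1 : 0 < ε₁) : ∃ C ε₀ : ℝ, 0 ≤ C ∧ 0 < ε₀ ∧
    ∀ {n q : ℕ} {I : Fin q → Finset (Fin n)} {w : Fin q → (Fin n → Bool) → ℤ},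
    OnBlocks I w → ∀ (a : ℝ) (θ : ℤ), (avg fun x => (((∑ j, w j x : ℤ) : ℝ) - a) ^ 2) ≤ L →
    ∃ G : (Fin n → Bool) → ℂ, (∀ x, ‖G x‖ ≤ 2) ∧ PC I C G ∧
      ∀ {Ω : Type} [Fintype Ω] [Nonempty Ω] (Y : Ω → Fin n → Bool),
        (∀ t : ℝ, ‖(av fun ω => be t ((∑ j, w j (Y ω) : ℤ) : ℝ)) -
          av fun x => be t ((∑ j, w j x : ℤ) : ℝ)‖ ≤ ε₀) →
        (avg fun ω => ‖((one (θ ≤ ∑ j, w j (Y ω)) : ℝ) : ℂ) - G (Y ω)‖) ≤ ε₁ := by
  classical
  obtain ⟨R, hR0, hconc⟩ := Ph.cn_gen L (show 0 < ε₁ / 2 by positivity)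
  refine ⟨2 * R + 1, ε₁ / 8, by positivity, by positivity, fun {n q I w} hw a θ hvar => ?_⟩
  set S : (Fin n → Bool) → ℤ := fun x => ∑ j, w j x with hS
  set U : Finset ℤ := Finset.Icc (max θ ⌈a - R⌉) ⌊a + R⌋ with hU
  -- a modulus
  obtain ⟨N, hN0, hN⟩ : ∃ N : ℕ, 0 < N ∧ ∀ x, ∀ u ∈ U, |S x - u| < N := by
    set m : ℕ := ∑ x : Fin n → Bool, ∑ u ∈ U, (S x - u).natAbs with hm
    refine ⟨m + 1, Nat.succ_pos _, fun x u hu => ?_⟩
    have h2 : (S x - u).natAbs ≤ m := by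
      refine le_trans ?_ (single_le_sum (f := fun x => ∑ u ∈ U, (S x - u).natAbs)
        (fun _ _ => Nat.zero_le _) (mem_univ x))
      exact single_le_sum (f := fun u => (S x - u).natAbs) (fun _ _ => Nat.zero_le _) hu
    have h3 : |S x - u| = ((S x - u).natAbs : ℤ) := (Int.natCast_natAbs _).symm
    rw [h3]
    push_cast
    have : ((S x - u).natAbs : ℤ) ≤ (m : ℤ) := by exact_mod_cast h2
    omega
  have : NeZero N := ⟨hN0.ne'⟩
  set V : Finset (ZMod N) := U.image fun u : ℤ => (u : ZMod N) with hV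
  have hmem : ∀ x, (∑ j, ((w j x : ℤ) : ZMod N) ∈ V ↔ S x ∈ U) := by
    intro x
    have h2 : ∑ j, ((w j x : ℤ) : ZMod N) = ((S x : ℤ) : ZMod N) := by
      simp only [hS]
      push_cast
      rfl
    rw [h2, hV, mem_image]
    constructor
    · rintro ⟨u, hu, hux⟩
      have h3 : ((N : ℤ)) ∣ S x - u := by
        rw [ZMod.intCast_eq_intCast_iff_dvd_sub] at hux
        exact hux
      have h4 : S x - u = 0 := Int.eq_zero_of_abs_lt_dvd h3 (hN x u hu)
      have h5 : S x = u := by omega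
      rw [h5]
      exact hu
    · intro h
      exact ⟨S x, h, rfl⟩
  have hcard : ((V.card : ℕ) : ℝ) ≤ 2 * R + 1 := by
    have h2 : V.card ≤ U.card := card_image_le
    have h3 : (U.card : ℝ) ≤ 2 * R + 1 := by
      rw [hU, Int.card_Icc]
      have h4 : (((⌊a + R⌋ + 1 - max θ ⌈a - R⌉).toNat : ℕ) : ℝ) =
          (((⌊a + R⌋ + 1 - max θ ⌈a - R⌉).toNat : ℤ) : ℝ) := by push_cast; rfl
      rw [h4, Int.toNat_eq_max]
      push_cast
      refine max_le ?_ (by linarith)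
      have h5 : (⌊a + R⌋ : ℝ) ≤ a + R := Int.floor_le _
      have h6 : a - R ≤ (⌈a - R⌉ : ℝ) := Int.le_ceil _
      have h7 : (⌈a - R⌉ : ℝ) ≤ max (θ : ℝ) (⌈a - R⌉ : ℝ) := le_max_right _ _
      linarith
    exact (Nat.cast_le.2 h2).trans h3
  refine ⟨fun x => ((one (∑ j, ((w j x : ℤ) : ZMod N) ∈ V) : ℝ) : ℂ), fun x => ?_, ?_, ?_⟩
  · linarith [tg_norm_one (∑ j, ((w j x : ℤ) : ZMod N) ∈ V)]
  · refine (fg_group (I := I) (fun j x => ((w j x : ℤ) : ZMod N)) ?_ V).mono hcard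
    intro j x y hxy
    show ((w j x : ℤ) : ZMod N) = ((w j y : ℤ) : ZMod N)
    rw [hw j x y hxy]
  · intro Ω _ _ Y hY
    have e2 := hconc n (fun x => ((S x : ℤ) : ℝ)) a 1 one_pos (by rw [one_pow, mul_one]; exact hvar) Y (ε₁ / 8) hY
    have hpt : ∀ x : Fin n → Bool,
        ‖((one (θ ≤ S x) : ℝ) : ℂ) - ((one (∑ j, ((w j x : ℤ) : ZMod N) ∈ V) : ℝ) : ℂ)‖ ≤
        one (R * 1 ≤ |((S x : ℤ) : ℝ) - a|) := by
      intro x
      have h2 : one (∑ j, ((w j x : ℤ) : ZMod N) ∈ V) = one (S x ∈ U) := by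
        congr 1
        exact propext (hmem x)
      rw [h2]
      by_cases h3 : R * 1 ≤ |((S x : ℤ) : ℝ) - a|
      · rw [one_true h3, ← Complex.ofReal_sub, Complex.norm_real, Real.norm_eq_abs, abs_le]
        have h4 := one_nonneg (θ ≤ S x)
        have h5 := one_le (θ ≤ S x)
        have h6 := one_nonneg (S x ∈ U)
        have h7 := one_le (S x ∈ U)
        constructor <;> linarith
      · rw [one_false h3]
        have h4 := abs_lt.1 (not_le.1 h3)
        have h5 : S x ∈ U ↔ θ ≤ S x := by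
          rw [hU, mem_Icc, max_le_iff]
          constructor
          · exact fun h => h.1.1
          · intro h
            refine ⟨⟨h, Int.ceil_le.2 ?_⟩, Int.le_floor.2 ?_⟩
            · linarith [h4.1]
            · linarith [h4.2]
        have h6 : one (S x ∈ U) = one (θ ≤ S x) := by
          congr 1
          exact propext h5
        rw [h6, sub_self, norm_zero]
    have h6 := avg_mono (f := fun ω => ‖((one (θ ≤ S (Y ω)) : ℝ) : ℂ) -
        ((one (∑ j, ((w j (Y ω) : ℤ) : ZMod N) ∈ V) : ℝ) : ℂ)‖)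
      (g := fun ω => one (R * 1 ≤ |((S (Y ω) : ℤ) : ℝ) - a|)) fun ω => hpt (Y ω)
    refine h6.trans ?_
    linarith

/-- The phases of a sum of functions of the blocks. -/
theorem tg_phase {n q : ℕ} {I : Fin q → Finset (Fin n)} {w : Fin q → (Fin n → Bool) → ℝ}
    (hw : ∀ j, Dep (I j) (w j)) {ε₀ : ℝ} {Θ : Type} [Fintype Θ] {Y : Θ → Fin n → Bool}
    (hY : Fool ε₀ I Y) (t : ℝ) :
    ‖(av fun ω => be t (∑ j, w j (Y ω))) - av fun x => be t (∑ j, w j x)‖ ≤ ε₀ := by
  have h := hY (fun j x => be t (w j x)) (fun j x y hxy => ?_) fun j x => (tg_norm_be _ _).le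
  · simp only [tg_be_sum]
    exact h
  · show be t (w j x) = be t (w j y)
    rw [hw j x y hxy]

/-- Threshold gates are close to combinations of few products. -/
theorem tg_gate (r B : ℕ) {ε : ℝ} (hε : 0 < ε) : ∃ C ε₀ : ℝ, 0 ≤ C ∧ 0 < ε₀ ∧ ∀ {n q : ℕ}
    {I : Fin q → Finset (Fin n)}, Over r I → ∀ {w : Fin q → (Fin n → Bool) → ℤ}, OnBlocks I w →
    (∀ j x, |w j x| ≤ B) → ∀ θ : ℤ, ∃ G : (Fin n → Bool) → ℂ, (∀ x, ‖G x‖ ≤ 2) ∧ PC I C G ∧
      ∀ {Θ : Type} [Fintype Θ] [Nonempty Θ] (Y : Θ → Fin n → Bool), Fool ε₀ I Y →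
        (avg fun ω => ‖((one (θ ≤ ∑ j, w j (Y ω)) : ℝ) : ℂ) - G (Y ω)‖) ≤ ε := by
  classical
  obtain ⟨δ, K₀, εa, hδ, hK₀, hεa, hac⟩ := ac_bits r (B : ℝ) (show 0 < ε / 2 by positivity)
  obtain ⟨C1, e1, hC1, he1, hbig⟩ := tg_big (1 / δ ^ 2) hε
  obtain ⟨C2, e2, hC2, he2, hsmall⟩ := tg_small (K₀ ^ 2) hε
  refine ⟨max C1 C2, min εa (min e1 e2), hC1.trans (le_max_left _ _),
    lt_min hεa (lt_min he1 he2), fun {n q I} hI w hw hwB θ => ?_⟩
  set v : Fin q → (Fin n → Bool) → ℝ := fun j x => ((w j x : ℤ) : ℝ) with hv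
  have hdep : ∀ j, Dep (I j) (v j) := by
    intro j x y hxy
    simp only [hv]
    rw [hw j x y hxy]
  have hvB : ∀ j x, |v j x| ≤ (B : ℝ) := by
    intro j x
    simp only [hv]
    exact_mod_cast hwB j x
  have hsum : ∀ x, (((∑ j, w j x : ℤ)) : ℝ) = ∑ j, v j x := by
    intro x
    simp only [hv]
    push_cast
    rfl
  have hone : ∀ x, one (θ ≤ ∑ j, w j x) = one ((θ : ℝ) ≤ ∑ j, v j x) := by
    intro x
    congr 1
    rw [← hsum x, Int.cast_le]
  set μ : ℝ := avg fun x => ∑ j, v j x with hμ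
  rcases le_or_gt (K₀ ^ 2) (avg fun x => (∑ j, v j x - μ) ^ 2) with hV | hV
  · set V : ℝ := avg fun x => (∑ j, v j x - μ) ^ 2 with hVd
    have hV0 : 0 ≤ V := (sq_nonneg _).trans hV
    have hσ1 : K₀ ≤ Real.sqrt V := Real.le_sqrt_of_sq_le hV
    have hσ2 : Real.sqrt V ^ 2 = V := Real.sq_sqrt hV0
    have hσ0 : 0 < Real.sqrt V := hK₀.trans_le hσ1
    obtain ⟨G, hG2, hGC, hG⟩ := hbig hdep μ (δ * Real.sqrt V) θ (mul_pos hδ hσ0) (by
      rw [mul_pow, hσ2]
      have : 1 / δ ^ 2 * (δ ^ 2 * V) = V := by field_simp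
      rw [this])
    refine ⟨G, hG2, hGC.mono (le_max_left _ _), fun {Θ} _ _ Y hY => ?_⟩
    have h2 := hG Y (fun t => (tg_phase hdep hY t).trans
      ((min_le_right _ _).trans (min_le_left _ _)))
      (hac hI hdep hvB (Real.sqrt V) hσ1 hσ2.le Y
        (fun f hf hf1 => (hY f hf hf1).trans (min_le_left _ _)) θ)
    simp only [hone]
    exact h2
  · obtain ⟨G, hG2, hGC, hG⟩ := hsmall hw μ θ (by simp only [hsum]; exact hV.le)
    refine ⟨G, hG2, hGC.mono (le_max_right _ _), fun {Θ} _ _ Y hY => ?_⟩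
    refine hG Y fun t => ?_
    simp only [hsum]
    exact (tg_phase hdep hY t).trans ((min_le_right _ _).trans (min_le_right _ _))

end Pool.Agent.MP_ca1109_lc.Ov
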